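import Mathlib

namespace Pool.Agent.MP_513174_co

open MvPolynomial

/-- Signed indices `±1, …, ±n`: the pair `(i, s)` stands for `s·i`. -/
abbrev SIdx (n : ℕ) : Type := Fin n × ℤˣ

/-- The signed index `-i`. -/
def neg {n : ℕ} (i : SIdx n) : SIdx n := (i.1, -i.2)

/-- Signed permutations: bijections `w` of `{±1, …, ±n}` with `w (-i) = - w i`. -/
structure SignedPerm (n : ℕ) where
  /-- the underlying bijection -/
  toPerm : Equiv.Perm (SIdx n)
  map_neg : ∀ i, toPerm (neg i) = neg (toPerm i)

theorem SignedPerm.toPerm_inj {n : ℕ} {a b : SignedPerm n} (h : a.toPerm = b.toPerm) : a = b := by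
  cases a; cases b; cases h; rfl

theorem SignedPerm.mul_map_neg {n : ℕ} (a b : SignedPerm n) (i : SIdx n) :
    (a.toPerm * b.toPerm) (neg i) = neg ((a.toPerm * b.toPerm) i) := by
  rw [Equiv.Perm.mul_apply, Equiv.Perm.mul_apply, b.map_neg, a.map_neg]

theorem SignedPerm.inv_map_neg {n : ℕ} (a : SignedPerm n) (i : SIdx n) :
    a.toPerm⁻¹ (neg i) = neg (a.toPerm⁻¹ i) := by
  rw [Equiv.Perm.inv_eq_iff_eq, a.map_neg]
  simp

instance (n : ℕ) : Mul (SignedPerm n) := ⟨fun a b => ⟨a.toPerm * b.toPerm, a.mul_map_neg b⟩⟩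

instance (n : ℕ) : One (SignedPerm n) := ⟨⟨1, fun _ => rfl⟩⟩

instance (n : ℕ) : Inv (SignedPerm n) := ⟨fun a => ⟨a.toPerm⁻¹, a.inv_map_neg⟩⟩

/-- The group of signed permutations, with composition. -/
instance (n : ℕ) : Group (SignedPerm n) :=
  Group.ofLeftAxioms (fun _ _ _ => rfl) (fun _ => rfl)
    (fun a => SignedPerm.toPerm_inj (inv_mul_cancel a.toPerm))

instance (n : ℕ) : Finite (SignedPerm n) :=
  Finite.of_injective SignedPerm.toPerm (fun _ _ h => SignedPerm.toPerm_inj h)

theorem signedPermOf_left {n : ℕ} (σ : Equiv.Perm (Fin n)) (ε : Fin n → ℤˣ) (p : SIdx n) :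
    (fun p : SIdx n => ((σ.symm p.1, ε (σ.symm p.1) * p.2) : SIdx n)) (σ p.1, ε p.1 * p.2) = p := by
  ext1
  · simp
  · simp [← mul_assoc, Int.units_mul_self]

theorem signedPermOf_right {n : ℕ} (σ : Equiv.Perm (Fin n)) (ε : Fin n → ℤˣ) (p : SIdx n) :
    (fun p : SIdx n => ((σ p.1, ε p.1 * p.2) : SIdx n)) (σ.symm p.1, ε (σ.symm p.1) * p.2) = p := by
  ext1
  · simp
  · simp [← mul_assoc, Int.units_mul_self]

/-- The signed permutation `(a, s) ↦ (σ a, ε a * s)`. -/
def signedPermOf {n : ℕ} (σ : Equiv.Perm (Fin n)) (ε : Fin n → ℤˣ) : SignedPerm n where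
  toPerm :=
    { toFun := fun p => (σ p.1, ε p.1 * p.2)
      invFun := fun p => (σ.symm p.1, ε (σ.symm p.1) * p.2)
      left_inv := signedPermOf_left σ ε
      right_inv := signedPermOf_right σ ε }
  map_neg := by intro p; simp [neg]

/-- Positive roots of type `C_n` (`dbl i` is `2 e_i`). -/
inductive PosRoot (n : ℕ)
  | sub (i j : Fin n) (h : i < j)
  | add (i j : Fin n) (h : i < j)
  | dbl (i : Fin n)

/-- The root as a vector in `ℤ^n`: `e_i - e_j`, `e_i + e_j`, `2 e_i`. -/
def PosRoot.vec {n : ℕ} : PosRoot n → Fin n → ℤ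
  | .sub i j _ => Pi.single i 1 - Pi.single j 1
  | .add i j _ => Pi.single i 1 + Pi.single j 1
  | .dbl i => Pi.single i 2

/-- The reflection `s_α`: `(i j)`, `(i -j)`, or the sign change of `i`. -/
def PosRoot.refl {n : ℕ} : PosRoot n → SignedPerm n
  | .sub i j _ => signedPermOf (Equiv.swap i j) 1
  | .add i j _ => signedPermOf (Equiv.swap i j) (fun a => if a = i ∨ a = j then -1 else 1)
  | .dbl i => signedPermOf 1 (fun a => if a = i then -1 else 1)

section LieSide

/-- `2n × 2n` complex matrices. -/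
abbrev Mat (n : ℕ) : Type := Matrix (Fin n ⊕ Fin n) (Fin n ⊕ Fin n) ℂ

/-- The Lie algebra `𝔤 = sp_{2n}(ℂ)` as a subspace of matrices: the matrices `A` with
`Aᵀ J = - J A`, where `J = [[0, -1], [1, 0]]`. -/
noncomputable def gLie (n : ℕ) : Submodule ℂ (Mat n) :=
  skewAdjointMatricesSubmodule (Matrix.J (Fin n) ℂ)

variable {n : ℕ}

/-- The torus element `diag(t, -t)` of `sp_{2n}`. -/
def torusElt (t : Fin n → ℂ) : Mat n := Matrix.diagonal (Sum.elim t (-t))

/-- The commutator map `A ↦ [B, A]` on matrices. -/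
noncomputable def comm (B : Mat n) : Mat n →ₗ[ℂ] Mat n :=
  LinearMap.mulLeft ℂ B - LinearMap.mulRight ℂ B

theorem comm_apply (A B : Mat n) : comm B A = B * A - A * B := rfl

/-- The weight space `𝔤_β = {A ∈ 𝔤 : [diag(t,-t), A] = β(t) A for all t}`. -/
noncomputable def weightSpace (β : Fin n → ℤ) : Submodule ℂ (Mat n) :=
  gLie n ⊓ ⨅ t : Fin n → ℂ, Module.End.eigenspace (comm (torusElt t)) (∑ i, (β i : ℂ) * t i)

theorem mem_weightSpace {β : Fin n → ℤ} {A : Mat n} : A ∈ weightSpace β ↔ A ∈ gLie n ∧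
    ∀ t : Fin n → ℂ, torusElt t * A - A * torusElt t = (∑ i, (β i : ℂ) * t i) • A := by
  rw [weightSpace, Submodule.mem_inf, Submodule.mem_iInf]
  simp only [Module.End.mem_eigenspace_iff, comm_apply]

/-- The Borel subalgebra `𝔟 = 𝔤_0 ⊕ ⨁_{α ∈ Φ⁺} 𝔤_α`, as a subspace of matrices. -/
noncomputable def borel (n : ℕ) : Submodule ℂ (Mat n) :=
  weightSpace (0 : Fin n → ℤ) ⊔ ⨆ α : PosRoot n, weightSpace α.vec

/-- A Hessenberg space: a subspace `𝔟 ⊆ H ⊆ 𝔤` with `[𝔟, H] ⊆ H`. -/
structure HessenbergSpace (n : ℕ) where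
  /-- the underlying subspace -/
  carrier : Submodule ℂ (Mat n)
  borel_le : borel n ≤ carrier
  le_gLie : carrier ≤ gLie n
  lie_mem : ∀ A ∈ borel n, ∀ B ∈ carrier, A * B - B * A ∈ carrier

/-- The positive roots `α` with `𝔤_{-α} ⊆ H`. -/
def HessenbergSpace.roots (H : HessenbergSpace n) : Set (PosRoot n) :=
  {α | weightSpace (-α.vec) ≤ H.carrier}

end LieSide

section Splines

variable {n : ℕ}

/-- Families of polynomials `ρ ∈ ∏_{w} ℂ[x_1, …, x_n]`. -/
abbrev Fam (n : ℕ) : Type := SignedPerm n → MvPolynomial (Fin n) ℂ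

/-- The signed variable `x_i`, with `x_{-i} = - x_i`. -/
noncomputable def sVar (i : SIdx n) : MvPolynomial (Fin n) ℂ := C (((i.2 : ℤ) : ℂ)) * X i.1

/-- The action of signed permutations on polynomials, `w x_i = x_{w(i)}`. -/
noncomputable def polyAct (w : SignedPerm n) :
    MvPolynomial (Fin n) ℂ →ₐ[ℂ] MvPolynomial (Fin n) ℂ :=
  aeval fun i => sVar (w.toPerm (i, 1))

/-- The linear form `∑ α_i x_i` of a root. -/
noncomputable def PosRoot.form (α : PosRoot n) : MvPolynomial (Fin n) ℂ :=
  ∑ i, C ((α.vec i : ℂ)) * X i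

/-- The condition defining splines. -/
def IsSpline (H : HessenbergSpace n) (ρ : Fam n) : Prop :=
  ∀ α ∈ H.roots, ∀ w : SignedPerm n, ρ w - ρ (w * α.refl) ∈ Ideal.span {polyAct w α.form}

theorem IsSpline.mul {H : HessenbergSpace n} {a b : Fam n} (ha : IsSpline H a)
    (hb : IsSpline H b) : IsSpline H (a * b) := by
  intro α hα w
  have h : (a * b) w - (a * b) (w * α.refl)
      = (a w - a (w * α.refl)) * b w + a (w * α.refl) * (b w - b (w * α.refl)) := by
    simp only [Pi.mul_apply]; ring
  rw [h]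
  exact add_mem (Ideal.mul_mem_right _ _ (ha α hα w)) (Ideal.mul_mem_left _ _ (hb α hα w))

theorem IsSpline.add {H : HessenbergSpace n} {a b : Fam n} (ha : IsSpline H a)
    (hb : IsSpline H b) : IsSpline H (a + b) := by
  intro α hα w
  have h : (a + b) w - (a + b) (w * α.refl)
      = (a w - a (w * α.refl)) + (b w - b (w * α.refl)) := by
    simp only [Pi.add_apply]; ring
  rw [h]
  exact add_mem (ha α hα w) (hb α hα w)

theorem isSpline_const (H : HessenbergSpace n) (p : MvPolynomial (Fin n) ℂ) :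
    IsSpline H (fun _ => p) := by
  intro α hα w; simp

/-- The spline ring `𝒮(H)`. -/
noncomputable def splineRing (H : HessenbergSpace n) : Subalgebra ℂ (Fam n) where
  carrier := {ρ | IsSpline H ρ}
  mul_mem' := IsSpline.mul
  add_mem' := IsSpline.add
  algebraMap_mem' _ := isSpline_const H _

/-- The spline ring as a type. -/
def SplineRing (H : HessenbergSpace n) : Type := splineRing H

noncomputable instance (H : HessenbergSpace n) : CommRing (SplineRing H) :=
  Subalgebra.toCommRing (splineRing H)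

/-- The constant spline `(p, p, …, p)`. -/
noncomputable def constSpline (H : HessenbergSpace n) (p : MvPolynomial (Fin n) ℂ) :
    SplineRing H :=
  ⟨fun _ => p, isSpline_const H p⟩

/-- The ideal of the spline ring generated by the constant splines `(p, …, p)`, `p` homogeneous
of positive degree. -/
noncomputable def constIdeal (H : HessenbergSpace n) : Ideal (SplineRing H) :=
  Ideal.span {ρ | ∃ (d : ℕ) (p : MvPolynomial (Fin n) ℂ), 0 < d ∧ p.IsHomogeneous d ∧
    ρ = constSpline H p}

theorem constSpline_mem (H : HessenbergSpace n) {p : MvPolynomial (Fin n) ℂ} {d : ℕ}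
    (hd : 0 < d) (hp : p.IsHomogeneous d) : constSpline H p ∈ constIdeal H :=
  Ideal.subset_span ⟨d, p, hd, hp, rfl⟩

theorem signedPerm_neg (w : SignedPerm n) (i : SIdx n) : w.toPerm (neg i) = neg (w.toPerm i) :=
  w.2 i

theorem sVar_neg (i : SIdx n) : sVar (neg i) = - sVar i := by
  simp [sVar, neg]

theorem polyAct_X (w : SignedPerm n) (i : Fin n) : polyAct w (X i) = sVar (w.toPerm (i, 1)) := by
  simp [polyAct]

theorem polyAct_sVar (w : SignedPerm n) (i : SIdx n) :
    polyAct w (sVar i) = sVar (w.toPerm i) := by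
  obtain ⟨i, s⟩ := i
  rcases Int.units_eq_one_or s with rfl | rfl
  · have : sVar ((i, 1) : SIdx n) = X i := by simp [sVar]
    rw [this, polyAct_X]
  · have h : ((i, -1) : SIdx n) = neg (i, 1) := rfl
    have : sVar ((i, 1) : SIdx n) = X i := by simp [sVar]
    rw [h, signedPerm_neg, sVar_neg, sVar_neg, map_neg, this, polyAct_X]

theorem polyAct_mul (v w : SignedPerm n) (p : MvPolynomial (Fin n) ℂ) :
    polyAct (v * w) p = polyAct v (polyAct w p) := by
  have h : polyAct (v * w) = (polyAct v).comp (polyAct w) := by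
    apply MvPolynomial.algHom_ext
    intro i
    rw [AlgHom.comp_apply, polyAct_X, polyAct_X, polyAct_sVar]
    rfl
  rw [h]; rfl

theorem polyAct_one (p : MvPolynomial (Fin n) ℂ) : polyAct (1 : SignedPerm n) p = p := by
  have h : polyAct (1 : SignedPerm n) = AlgHom.id ℂ _ := by
    apply MvPolynomial.algHom_ext
    intro i
    rw [polyAct_X]
    change sVar (i, 1) = _
    simp [sVar]
  rw [h]; rfl

theorem isHomogeneous_sVar (i : SIdx n) : (sVar i).IsHomogeneous 1 := by
  unfold sVar
  exact isHomogeneous_C_mul_X _ _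

theorem polyAct_isHomogeneous (w : SignedPerm n) {p : MvPolynomial (Fin n) ℂ} {k : ℕ}
    (hp : p.IsHomogeneous k) : (polyAct w p).IsHomogeneous k := by
  have h := hp.aeval (fun i => sVar (w.toPerm (i, 1)))
    (fun i => isHomogeneous_sVar _)
  rw [one_mul] at h
  exact h

/-- The dot action `(w · ρ)(v) = w ρ(w⁻¹ v)`. -/
noncomputable def dot (w : SignedPerm n) (ρ : Fam n) : Fam n := fun v => polyAct w (ρ (w⁻¹ * v))

theorem dot_apply (w : SignedPerm n) (ρ : Fam n) (v : SignedPerm n) :
    dot w ρ v = polyAct w (ρ (w⁻¹ * v)) := rfl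

theorem dot_one (ρ : Fam n) : dot 1 ρ = ρ := by
  funext v
  rw [dot_apply, polyAct_one, inv_one, one_mul]

theorem dot_mul (a b : SignedPerm n) (ρ : Fam n) : dot (a * b) ρ = dot a (dot b ρ) := by
  funext v
  rw [dot_apply, dot_apply, dot_apply, polyAct_mul, mul_inv_rev, mul_assoc]

theorem dot_mem (H : HessenbergSpace n) (w : SignedPerm n) {ρ : Fam n} (hρ : IsSpline H ρ) :
    IsSpline H (dot w ρ) := by
  intro α hα v
  have h := hρ α hα (w⁻¹ * v)
  rw [Ideal.mem_span_singleton] at h ⊢
  rw [dot_apply, dot_apply, ← map_sub, ← mul_assoc]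
  have h2 := map_dvd (polyAct w) h
  rwa [← polyAct_mul, mul_inv_cancel_left] at h2

/-- The dot action on the spline ring. -/
noncomputable def dotRing (H : HessenbergSpace n) (w : SignedPerm n) :
    SplineRing H →+* SplineRing H where
  toFun ρ := ⟨dot w ρ.1, dot_mem H w ρ.2⟩
  map_one' := by
    apply Subtype.ext
    funext v
    change polyAct w 1 = 1
    rw [map_one]
  map_mul' a b := by
    apply Subtype.ext
    funext v
    change polyAct w (a.1 _ * b.1 _) = polyAct w (a.1 _) * polyAct w (b.1 _)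
    rw [map_mul]
  map_zero' := by
    apply Subtype.ext
    funext v
    change polyAct w 0 = 0
    rw [map_zero]
  map_add' a b := by
    apply Subtype.ext
    funext v
    change polyAct w (a.1 _ + b.1 _) = polyAct w (a.1 _) + polyAct w (b.1 _)
    rw [map_add]

theorem dotRing_mem_constIdeal (H : HessenbergSpace n) (w : SignedPerm n) {ρ : SplineRing H}
    (hρ : ρ ∈ constIdeal H) : dotRing H w ρ ∈ constIdeal H := by
  have h : constIdeal H ≤ (constIdeal H).comap (dotRing H w) := by
    conv_lhs => rw [constIdeal]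
    rw [Ideal.span_le]
    rintro _ ⟨d, p, hd, hp, rfl⟩
    apply Ideal.subset_span
    exact ⟨d, polyAct w p, hd, polyAct_isHomogeneous w hp, rfl⟩
  exact h hρ

theorem splineDeg_smul (H : HessenbergSpace n) (k : ℕ) (c : ℂ) {ρ : Fam n}
    (h : IsSpline H ρ ∧ ∀ w, (ρ w).IsHomogeneous k) :
    IsSpline H (c • ρ) ∧ ∀ w, ((c • ρ) w).IsHomogeneous k :=
  ⟨Subalgebra.smul_mem (splineRing H) h.1 c, fun w =>
    Submodule.smul_mem (homogeneousSubmodule (Fin n) ℂ k) c (h.2 w)⟩

/-- The space of homogeneous splines of degree `k`. -/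
noncomputable def splineDeg (H : HessenbergSpace n) (k : ℕ) : Submodule ℂ (Fam n) where
  carrier := {ρ | IsSpline H ρ ∧ ∀ w : SignedPerm n, (ρ w).IsHomogeneous k}
  add_mem' := fun ha hb => ⟨ha.1.add hb.1, fun w => (ha.2 w).add (hb.2 w)⟩
  zero_mem' := ⟨isSpline_const H 0, fun _ => isHomogeneous_zero _ _ _⟩
  smul_mem' := fun c _ ha => splineDeg_smul H k c ha

/-- The space of homogeneous splines of degree `k`, as a type. -/
def SplineDeg (H : HessenbergSpace n) (k : ℕ) : Type := splineDeg H k

noncomputable instance (H : HessenbergSpace n) (k : ℕ) : AddCommGroup (SplineDeg H k) :=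
  Submodule.addCommGroup (splineDeg H k)

noncomputable instance (H : HessenbergSpace n) (k : ℕ) : Module ℂ (SplineDeg H k) :=
  Submodule.module (splineDeg H k)

/-- A homogeneous spline as an element of the spline ring. -/
def SplineDeg.toRing {H : HessenbergSpace n} {k : ℕ} (ρ : SplineDeg H k) : SplineRing H :=
  ⟨ρ.1, ρ.2.1⟩

theorem constPart_smul (H : HessenbergSpace n) (k : ℕ) (c : ℂ) {ρ : SplineDeg H k}
    (h : ρ.toRing ∈ constIdeal H) : (c • ρ).toRing ∈ constIdeal H := by
  have h2 : (c • ρ).toRing = constSpline H (C c) * ρ.toRing := by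
    apply Subtype.ext
    funext w
    exact MvPolynomial.smul_eq_C_mul _ _
  rw [h2]
  exact Ideal.mul_mem_left _ _ h

/-- The degree-`k` part of the ideal generated by the constant splines of positive degree. -/
noncomputable def constPart (H : HessenbergSpace n) (k : ℕ) : Submodule ℂ (SplineDeg H k) where
  carrier := {ρ | ρ.toRing ∈ constIdeal H}
  add_mem' := fun ha hb => (constIdeal H).add_mem ha hb
  zero_mem' := (constIdeal H).zero_mem
  smul_mem' := fun c _ ha => constPart_smul H k c ha

/-- The degree-`k` piece of the left quotient of the spline ring. -/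
def LeftQuotient (H : HessenbergSpace n) (k : ℕ) : Type := SplineDeg H k ⧸ constPart H k

noncomputable instance (H : HessenbergSpace n) (k : ℕ) : AddCommGroup (LeftQuotient H k) :=
  Submodule.Quotient.addCommGroup (constPart H k)

noncomputable instance (H : HessenbergSpace n) (k : ℕ) : Module ℂ (LeftQuotient H k) :=
  Submodule.Quotient.module (constPart H k)

/-- The dot action on homogeneous splines of degree `k`. -/
noncomputable def dotDeg {H : HessenbergSpace n} {k : ℕ} (w : SignedPerm n) (ρ : SplineDeg H k) :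
    SplineDeg H k :=
  ⟨dot w ρ.1, dot_mem H w ρ.2.1, fun _ => polyAct_isHomogeneous w (ρ.2.2 _)⟩

theorem dotDeg_add {H : HessenbergSpace n} {k : ℕ} (w : SignedPerm n) (ρ σ : SplineDeg H k) :
    dotDeg w (ρ + σ) = dotDeg w ρ + dotDeg w σ := by
  apply Subtype.ext
  funext v
  exact map_add (polyAct w) _ _

theorem dotDeg_smul {H : HessenbergSpace n} {k : ℕ} (w : SignedPerm n) (c : ℂ)
    (ρ : SplineDeg H k) : dotDeg w (c • ρ) = c • dotDeg w ρ := by
  apply Subtype.ext
  funext v
  exact map_smul (polyAct w) _ _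

/-- The representation on the homogeneous splines of degree `k` by the dot action. -/
noncomputable def degRep (H : HessenbergSpace n) (k : ℕ) :
    Representation ℂ (SignedPerm n) (SplineDeg H k) where
  toFun w := { toFun := dotDeg w, map_add' := dotDeg_add w, map_smul' := dotDeg_smul w }
  map_one' := by
    ext1 ρ
    exact Subtype.ext (dot_one ρ.1)
  map_mul' a b := by
    ext1 ρ
    exact Subtype.ext (dot_mul a b ρ.1)

theorem mem_constPart {H : HessenbergSpace n} {k : ℕ} {ρ : SplineDeg H k} :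
    ρ ∈ constPart H k ↔ ρ.toRing ∈ constIdeal H := Iff.rfl

theorem degRep_apply (H : HessenbergSpace n) (k : ℕ) (w : SignedPerm n) (ρ : SplineDeg H k) :
    degRep H k w ρ = dotDeg w ρ := rfl

theorem toRing_dotDeg {H : HessenbergSpace n} {k : ℕ} (w : SignedPerm n) (ρ : SplineDeg H k) :
    (dotDeg w ρ).toRing = dotRing H w ρ.toRing := rfl

theorem constPart_le_comap (H : HessenbergSpace n) (k : ℕ) (w : SignedPerm n) :
    constPart H k ≤ (constPart H k).comap (degRep H k w) := by
  intro ρ hρ
  rw [mem_constPart] at hρ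
  rw [Submodule.mem_comap, degRep_apply, mem_constPart, toRing_dotDeg]
  exact dotRing_mem_constIdeal H w hρ

/-- The representation of the group of signed permutations on the degree-`k` piece of the left
quotient, induced by the dot action. -/
noncomputable def leftRep (H : HessenbergSpace n) (k : ℕ) :
    Representation ℂ (SignedPerm n) (LeftQuotient H k) :=
  (degRep H k).quotient (constPart H k) (constPart_le_comap H k)

/-- The character `π_R` of the action on the cosets of `R`: the number of fixed cosets. -/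
noncomputable def cosetChar (R : Subgroup (SignedPerm n)) (w : SignedPerm n) : ℕ :=
  Nat.card {x : SignedPerm n ⧸ R // w • x = x}

end Splines

end Pool.Agent.MP_513174_co
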