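import Pool.Agent.MP_513174_co.Rel

namespace Pool.Agent.MP_513174_co

open MvPolynomial

theorem sum_dist {M : Type*} [AddCommMonoid M] (F : Fin 3 → M) {i j k : SIdx 3}
    (h : Dist i j k) : F i.1 + F j.1 + F k.1 = F 0 + F 1 + F 2 := by
  obtain ⟨h1, h2, h3⟩ := h
  generalize i.1 = x at *
  generalize j.1 = y at *
  generalize k.1 = z at *
  fin_cases x <;> fin_cases y <;> fin_cases z <;>
    first
    | exact absurd rfl h1
    | exact absurd rfl h2
    | exact absurd rfl h3
    | (simp only [Fin.zero_eta, Fin.mk_one, Fin.reduceFinMk] <;> abel)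

theorem mul_s12 {i j k : SIdx 3} (h : Dist i j k) :
    ofTriple i j k * s12.refl = ofTriple j i k := by
  obtain ⟨h0, h1, h2⟩ := val_ofTriple h
  obtain ⟨g0, g1, g2⟩ := val_s12 (ofTriple i j k)
  exact eq_ofTriple _ (g0.trans h1) (g1.trans h0) (g2.trans h2)

theorem mul_s23 {i j k : SIdx 3} (h : Dist i j k) :
    ofTriple i j k * s23.refl = ofTriple i k j := by
  obtain ⟨h0, h1, h2⟩ := val_ofTriple h
  obtain ⟨g0, g1, g2⟩ := val_s23 (ofTriple i j k)
  exact eq_ofTriple _ (g0.trans h0) (g1.trans h2) (g2.trans h1)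

theorem mul_s13 {i j k : SIdx 3} (h : Dist i j k) :
    ofTriple i j k * s13.refl = ofTriple k j i := by
  obtain ⟨h0, h1, h2⟩ := val_ofTriple h
  obtain ⟨g0, g1, g2⟩ := val_s13 (ofTriple i j k)
  exact eq_ofTriple _ (g0.trans h2) (g1.trans h1) (g2.trans h0)

theorem mul_t3 {i j k : SIdx 3} (h : Dist i j k) :
    ofTriple i j k * t3.refl = ofTriple i j (neg k) := by
  obtain ⟨h0, h1, h2⟩ := val_ofTriple h
  obtain ⟨g0, g1, g2⟩ := val_t3 (ofTriple i j k)
  exact eq_ofTriple _ (g0.trans h0) (g1.trans h1) (g2.trans (congrArg neg h2))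

theorem mul_n23 {i j k : SIdx 3} (h : Dist i j k) :
    ofTriple i j k * n23.refl = ofTriple i (neg k) (neg j) := by
  obtain ⟨h0, h1, h2⟩ := val_ofTriple h
  obtain ⟨g0, g1, g2⟩ := val_n23 (ofTriple i j k)
  exact eq_ofTriple _ (g0.trans h0) (g1.trans (congrArg neg h2)) (g2.trans (congrArg neg h1))

theorem mul_n13 {i j k : SIdx 3} (h : Dist i j k) :
    ofTriple i j k * n13.refl = ofTriple (neg k) j (neg i) := by
  obtain ⟨h0, h1, h2⟩ := val_ofTriple h
  obtain ⟨g0, g1, g2⟩ := val_n13 (ofTriple i j k)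
  exact eq_ofTriple _ (g0.trans (congrArg neg h2)) (g1.trans h1) (g2.trans (congrArg neg h0))

theorem eq_ofTriple' (v : SignedPerm 3) : v = ofTriple (val v 0) (val v 1) (val v 2) :=
  eq_ofTriple v rfl rfl rfl

theorem C_sg_mul_sVar (i : SIdx 3) : C (sg i) * sVar i = (X i.1 : MvPolynomial (Fin 3) ℂ) := by
  rw [sVar, ← mul_assoc, ← C_mul]
  change C (sg i * sg i) * X i.1 = _
  rw [sg_mul_self, C_1, one_mul]

/-- The product of the signs of a signed permutation. -/
noncomputable def dl (v : SignedPerm 3) : ℂ := sg (val v 0) * sg (val v 1) * sg (val v 2)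

/-- Structure of the splines of degree one. -/
theorem splines_deg1 {σ : SignedPerm 3 → MvPolynomial (Fin 3) ℂ} (hσ : σ ∈ splineDeg H0 1) :
    ∃ (p : Fin 3 → ℂ) (q1 q2 q3 r : ℂ), ∀ v, σ v = (C (p 0) * X 0 + C (p 1) * X 1 + C (p 2) * X 2)
      + C q1 * sVar (val v 0) + C q2 * sVar (val v 1) + C q3 * sVar (val v 2)
      + C (r * dl v) * sVar (val v 2) := by
  obtain ⟨hs, hd⟩ := hσ
  have hform : ∀ v, ∃ c1 c2 c3 : ℂ, rc σ v = C c1 * X 0 + C c2 * X 1 + C c3 * X 2 :=
    fun v => deg1_form (polyAct_isHomogeneous _ (hd v))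
  choose c1 c2 c3 hc using hform
  have ev : ∀ (v : SignedPerm 3) (t : Fin 3 → ℂ),
      eval t (rc σ v) = c1 v * t 0 + c2 v * t 1 + c3 v * t 2 := by
    intro v t
    rw [hc v]; simp
  obtain ⟨p, q1, q2, q3, r, h⟩ := structA (fun i j k => c1 (ofTriple i j k))
    (fun i j k => c2 (ofTriple i j k)) (fun i j k => c3 (ofTriple i j k))
    (by
      intro i j k h
      have e := edge_t3 hs (ofTriple i j k) ![1, 0, 0] rfl
      rw [mul_t3 h, ev, ev] at e
      simpa using e.symm)
    (by
      intro i j k h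
      have e := edge_t3 hs (ofTriple i j k) ![0, 1, 0] rfl
      rw [mul_t3 h, ev, ev] at e
      simpa using e.symm)
    (by
      intro i j k h
      have e := edge_s12 hs (ofTriple i j k) ![1, 1, 0] rfl
      rw [mul_s12 h, ev, ev] at e
      simpa using e)
    (by
      intro i j k h
      have e := edge_s12 hs (ofTriple i j k) ![0, 0, 1] rfl
      rw [mul_s12 h, ev, ev] at e
      simpa using e)
    (by
      intro i j k h
      have e := edge_s23 hs (ofTriple i j k) ![0, 1, 1] rfl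
      rw [mul_s23 h, ev, ev] at e
      simpa using e)
    (by
      intro i j k h
      have e := edge_s23 hs (ofTriple i j k) ![1, 0, 0] rfl
      rw [mul_s23 h, ev, ev] at e
      simpa using e)
    (by
      intro i j k h
      have e := edge_s13 hs (ofTriple i j k) ![0, 1, 0] rfl
      rw [mul_s13 h, ev, ev] at e
      simpa using e)
    (by
      intro i j k h
      have e := edge_n23 hs (ofTriple i j k) ![0, 1, -1] rfl
      rw [mul_n23 h, ev, ev] at e
      simp at e
      linear_combination e)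
  refine ⟨p, q1, q2, q3, r, fun v => ?_⟩
  obtain ⟨e1, e2, e3⟩ := h _ _ _ (dist_val v)
  rw [← eq_ofTriple' v] at e1 e2 e3
  have hv : σ v = C (c1 v) * sVar (val v 0) + C (c2 v) * sVar (val v 1)
      + C (c3 v) * sVar (val v 2) := by
    conv_lhs => rw [← polyAct_rc σ v, hc v]
    simp only [map_add, map_mul, polyAct_X, val]
    simp [polyAct, algebraMap_eq]
  rw [hv, e1, e2, e3, dl]
  have hsum := sum_dist (fun x => C (p x) * X x : Fin 3 → MvPolynomial (Fin 3) ℂ) (dist_val v)
  rw [← hsum]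
  simp only [C_add, C_mul]
  rw [← C_sg_mul_sVar (val v 0), ← C_sg_mul_sVar (val v 1), ← C_sg_mul_sVar (val v 2)]
  ring

end Pool.Agent.MP_513174_co
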