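import Pool.Agent.MP_513174_co.Deg1

namespace Pool.Agent.MP_513174_co

open MvPolynomial

/-- The central element `-1`. -/
def negW : SignedPerm 3 := signedPermOf 1 (fun _ => -1)

theorem negW_apply (i : SIdx 3) : negW.toPerm i = neg i := by
  simp [negW, signedPermOf, neg]

theorem negW_mul_self : negW * negW = 1 := by
  apply val_ext
  intro a
  rw [val_mul, val, negW_apply, negW_apply, neg_neg']
  rfl

theorem negW_inv : negW⁻¹ = negW := inv_eq_of_mul_eq_one_left negW_mul_self

theorem val_negW_mul (v : SignedPerm 3) (a : Fin 3) : val (negW * v) a = neg (val v a) := by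
  rw [val_mul, negW_apply]

theorem val_mul_negW (v : SignedPerm 3) (a : Fin 3) : val (v * negW) a = neg (val v a) := by
  rw [val_mul, val, negW_apply, signedPerm_neg]; rfl

theorem mul_neg_triple {i j k : SIdx 3} (h : Dist i j k) :
    negW * ofTriple i j k = ofTriple (neg i) (neg j) (neg k) := by
  obtain ⟨h0, h1, h2⟩ := val_ofTriple h
  apply eq_ofTriple
  · rw [val_negW_mul, h0]
  · rw [val_negW_mul, h1]
  · rw [val_negW_mul, h2]

theorem eval_neg_deg2 {q : MvPolynomial (Fin 3) ℂ} (hq : q.IsHomogeneous 2) (s : Fin 3 → ℂ) :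
    eval (fun a => - s a) q = eval s q := by
  obtain ⟨c11, c12, c13, c22, c23, c33, rfl⟩ := deg2_form hq
  simp

theorem rc_even {ρ : SignedPerm 3 → MvPolynomial (Fin 3) ℂ} (hd : ∀ v, (ρ v).IsHomogeneous 2)
    (he : ∀ v, ρ (negW * v) = ρ v) (v : SignedPerm 3) (t : Fin 3 → ℂ) :
    eval t (rc ρ (negW * v)) = eval t (rc ρ v) := by
  rw [rc, rc, he, eval_polyAct, eval_polyAct]
  have h : (fun a => eval t (sVar (val (negW * v)⁻¹ a)))
      = fun a => - eval t (sVar (val v⁻¹ a)) := by
    funext a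
    rw [mul_inv_rev, negW_inv, val_mul_negW, sVar_neg, map_neg]
  rw [h, eval_neg_deg2 (hd v)]

/-- Structure of the even splines of degree two. -/
theorem splines_deg2_even {ρ : SignedPerm 3 → MvPolynomial (Fin 3) ℂ} (hρ : ρ ∈ splineDeg H0 2)
    (he : ∀ v, ρ (negW * v) = ρ v) :
    ∃ (q : MvPolynomial (Fin 3) ℂ) (μ : Fin 3 → ℂ) (κ12 κ13 κ22 κ23 κ33 : ℂ),
      q.IsHomogeneous 2 ∧ ∀ v, ρ v = q
        + (C (μ 0) * X 0 + C (μ 1) * X 1 + C (μ 2) * X 2) * (C (dl v) * sVar (val v 2))
        + C κ12 * (sVar (val v 0) * sVar (val v 1)) + C κ13 * (sVar (val v 0) * sVar (val v 2))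
        + C κ22 * (sVar (val v 1) * sVar (val v 1)) + C κ23 * (sVar (val v 1) * sVar (val v 2))
        + C κ33 * (sVar (val v 2) * sVar (val v 2)) := by
  obtain ⟨hs, hd⟩ := hρ
  have hform : ∀ v, ∃ c11 c12 c13 c22 c23 c33 : ℂ, rc ρ v = C c11 * X 0 ^ 2
      + C c12 * (X 0 * X 1) + C c13 * (X 0 * X 2) + C c22 * X 1 ^ 2 + C c23 * (X 1 * X 2)
      + C c33 * X 2 ^ 2 :=
    fun v => deg2_form (polyAct_isHomogeneous _ (hd v))
  choose c11 c12 c13 c22 c23 c33 hc using hform
  have ev : ∀ (v : SignedPerm 3) (t : Fin 3 → ℂ),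
      eval t (rc ρ v) = c11 v * t 0 ^ 2 + c12 v * (t 0 * t 1) + c13 v * (t 0 * t 2)
        + c22 v * t 1 ^ 2 + c23 v * (t 1 * t 2) + c33 v * t 2 ^ 2 := by
    intro v t
    rw [hc v]; simp
  have ev3 : ∀ (v : SignedPerm 3) (a b c : ℂ),
      eval ![a, b, c] (rc ρ v) = c11 v * a ^ 2 + c12 v * (a * b) + c13 v * (a * c)
        + c22 v * b ^ 2 + c23 v * (b * c) + c33 v * c ^ 2 := by
    intro v a b c
    rw [ev]; rfl
  obtain ⟨A, l, μ, κ12, κ13, κ22, κ23, κ33, hl, h⟩ := structC (fun i j k => c11 (ofTriple i j k))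
    (fun i j k => c12 (ofTriple i j k)) (fun i j k => c13 (ofTriple i j k))
    (fun i j k => c22 (ofTriple i j k)) (fun i j k => c23 (ofTriple i j k))
    (fun i j k => c33 (ofTriple i j k))
    (by
      intro i j k h
      have e0 := edge_t3 hs (ofTriple i j k) ![1, 0, 0] (by simp)
      rw [mul_t3 h, ev3, ev3] at e0
      linear_combination -e0)
    (by
      intro i j k h
      have e0 := edge_t3 hs (ofTriple i j k) ![1, 0, 0] (by simp)
      rw [mul_t3 h, ev3, ev3] at e0
      have e1 := edge_t3 hs (ofTriple i j k) ![0, 1, 0] (by simp)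
      rw [mul_t3 h, ev3, ev3] at e1
      have e2 := edge_t3 hs (ofTriple i j k) ![1, 1, 0] (by simp)
      rw [mul_t3 h, ev3, ev3] at e2
      linear_combination -(e2 - e0 - e1))
    (by
      intro i j k h
      have e0 := edge_t3 hs (ofTriple i j k) ![0, 1, 0] (by simp)
      rw [mul_t3 h, ev3, ev3] at e0
      linear_combination -e0)
    (by
      intro i j k h
      have e0 := edge_s12 hs (ofTriple i j k) ![1, 1, 0] (by simp)
      rw [mul_s12 h, ev3, ev3] at e0
      linear_combination e0)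
    (by
      intro i j k h
      have e0 := edge_s12 hs (ofTriple i j k) ![1, 1, 1] (by simp)
      rw [mul_s12 h, ev3, ev3] at e0
      have e1 := edge_s12 hs (ofTriple i j k) ![1, 1, 0] (by simp)
      rw [mul_s12 h, ev3, ev3] at e1
      have e2 := edge_s12 hs (ofTriple i j k) ![0, 0, 1] (by simp)
      rw [mul_s12 h, ev3, ev3] at e2
      linear_combination e0 - e1 - e2)
    (by
      intro i j k h
      have e0 := edge_s12 hs (ofTriple i j k) ![0, 0, 1] (by simp)
      rw [mul_s12 h, ev3, ev3] at e0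
      linear_combination e0)
    (by
      intro i j k h
      have e0 := edge_s23 hs (ofTriple i j k) ![0, 1, 1] (by simp)
      rw [mul_s23 h, ev3, ev3] at e0
      linear_combination e0)
    (by
      intro i j k h
      have e0 := edge_s23 hs (ofTriple i j k) ![1, 1, 1] (by simp)
      rw [mul_s23 h, ev3, ev3] at e0
      have e1 := edge_s23 hs (ofTriple i j k) ![0, 1, 1] (by simp)
      rw [mul_s23 h, ev3, ev3] at e1
      have e2 := edge_s23 hs (ofTriple i j k) ![1, 0, 0] (by simp)
      rw [mul_s23 h, ev3, ev3] at e2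
      linear_combination e0 - e1 - e2)
    (by
      intro i j k h
      have e0 := edge_s23 hs (ofTriple i j k) ![1, 0, 0] (by simp)
      rw [mul_s23 h, ev3, ev3] at e0
      linear_combination e0)
    (by
      intro i j k h
      have e0 := edge_s13 hs (ofTriple i j k) ![1, 1, 1] (by simp)
      rw [mul_s13 h, ev3, ev3] at e0
      have e1 := edge_s13 hs (ofTriple i j k) ![1, 0, 1] (by simp)
      rw [mul_s13 h, ev3, ev3] at e1
      have e2 := edge_s13 hs (ofTriple i j k) ![0, 1, 0] (by simp)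
      rw [mul_s13 h, ev3, ev3] at e2
      linear_combination e0 - e1 - e2)
    (by
      intro i j k h
      have e0 := edge_s13 hs (ofTriple i j k) ![0, 1, 0] (by simp)
      rw [mul_s13 h, ev3, ev3] at e0
      linear_combination e0)
    (by
      intro i j k h
      have e0 := edge_n23 hs (ofTriple i j k) ![0, 1, -1] (by simp)
      rw [mul_n23 h, ev3, ev3] at e0
      linear_combination e0)
    (by
      intro i j k h
      have e0 := edge_n23 hs (ofTriple i j k) ![1, 1, -1] (by simp)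
      rw [mul_n23 h, ev3, ev3] at e0
      have e1 := edge_n23 hs (ofTriple i j k) ![0, 1, -1] (by simp)
      rw [mul_n23 h, ev3, ev3] at e1
      have e2 := edge_n23 hs (ofTriple i j k) ![1, 0, 0] (by simp)
      rw [mul_n23 h, ev3, ev3] at e2
      linear_combination e0 - e1 - e2)
    (by
      intro i j k h
      have e0 := edge_n13 hs (ofTriple i j k) ![1, 1, -1] (by simp)
      rw [mul_n13 h, ev3, ev3] at e0
      have e1 := edge_n13 hs (ofTriple i j k) ![1, 0, -1] (by simp)
      rw [mul_n13 h, ev3, ev3] at e1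
      have e2 := edge_n13 hs (ofTriple i j k) ![0, 1, 0] (by simp)
      rw [mul_n13 h, ev3, ev3] at e2
      linear_combination e0 - e1 - e2)
    (by
      intro i j k h
      have e0 := rc_even hd he (ofTriple i j k) ![1, 0, 0]
      rw [mul_neg_triple h, ev3, ev3] at e0
      linear_combination e0)
    (by
      intro i j k h
      have e0 := rc_even hd he (ofTriple i j k) ![1, 1, 0]
      rw [mul_neg_triple h, ev3, ev3] at e0
      have e1 := rc_even hd he (ofTriple i j k) ![1, 0, 0]
      rw [mul_neg_triple h, ev3, ev3] at e1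
      have e2 := rc_even hd he (ofTriple i j k) ![0, 1, 0]
      rw [mul_neg_triple h, ev3, ev3] at e2
      linear_combination e0 - e1 - e2)
    (by
      intro i j k h
      have e0 := rc_even hd he (ofTriple i j k) ![1, 0, 1]
      rw [mul_neg_triple h, ev3, ev3] at e0
      have e1 := rc_even hd he (ofTriple i j k) ![1, 0, 0]
      rw [mul_neg_triple h, ev3, ev3] at e1
      have e2 := rc_even hd he (ofTriple i j k) ![0, 0, 1]
      rw [mul_neg_triple h, ev3, ev3] at e2
      linear_combination e0 - e1 - e2)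
    (by
      intro i j k h
      have e0 := rc_even hd he (ofTriple i j k) ![0, 1, 0]
      rw [mul_neg_triple h, ev3, ev3] at e0
      linear_combination e0)
    (by
      intro i j k h
      have e0 := rc_even hd he (ofTriple i j k) ![0, 1, 1]
      rw [mul_neg_triple h, ev3, ev3] at e0
      have e1 := rc_even hd he (ofTriple i j k) ![0, 1, 0]
      rw [mul_neg_triple h, ev3, ev3] at e1
      have e2 := rc_even hd he (ofTriple i j k) ![0, 0, 1]
      rw [mul_neg_triple h, ev3, ev3] at e2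
      linear_combination e0 - e1 - e2)
    (by
      intro i j k h
      have e0 := rc_even hd he (ofTriple i j k) ![0, 0, 1]
      rw [mul_neg_triple h, ev3, ev3] at e0
      linear_combination e0)
  refine ⟨C (A 0) * X 0 ^ 2 + C (A 1) * X 1 ^ 2 + C (A 2) * X 2 ^ 2 + C (l 0 1) * (X 0 * X 1)
    + C (l 1 2) * (X 1 * X 2) + C (l 0 2) * (X 0 * X 2), μ, κ12, κ13, κ22, κ23, κ33, ?_, fun v => ?_⟩
  · refine IsHomogeneous.add (IsHomogeneous.add (IsHomogeneous.add (IsHomogeneous.add
      (IsHomogeneous.add ?_ ?_) ?_) ?_) ?_) ?_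
    · exact ((isHomogeneous_X ℂ 0).pow 2).C_mul _
    · exact ((isHomogeneous_X ℂ 1).pow 2).C_mul _
    · exact ((isHomogeneous_X ℂ 2).pow 2).C_mul _
    · exact ((isHomogeneous_X ℂ 0).mul (isHomogeneous_X ℂ 1)).C_mul _
    · exact ((isHomogeneous_X ℂ 1).mul (isHomogeneous_X ℂ 2)).C_mul _
    · exact ((isHomogeneous_X ℂ 0).mul (isHomogeneous_X ℂ 2)).C_mul _
  obtain ⟨e11, e22, e33, e12, e13, e23⟩ := h _ _ _ (dist_val v)
  rw [← eq_ofTriple' v] at e11 e22 e33 e12 e13 e23
  have hv : ρ v = C (c11 v) * sVar (val v 0) ^ 2 + C (c12 v) * (sVar (val v 0) * sVar (val v 1))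
      + C (c13 v) * (sVar (val v 0) * sVar (val v 2)) + C (c22 v) * sVar (val v 1) ^ 2
      + C (c23 v) * (sVar (val v 1) * sVar (val v 2)) + C (c33 v) * sVar (val v 2) ^ 2 := by
    conv_lhs => rw [← polyAct_rc ρ v, hc v]
    simp only [map_add, map_mul, map_pow, polyAct_X, val]
    simp [polyAct, algebraMap_eq]
  have k0 := C_sg_mul_sVar (val v 0)
  have k1 := C_sg_mul_sVar (val v 1)
  have k2 := C_sg_mul_sVar (val v 2)
  have hsum1 : C (A (val v 0).1) * X (val v 0).1 ^ 2 + C (A (val v 1).1) * X (val v 1).1 ^ 2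
      + C (A (val v 2).1) * X (val v 2).1 ^ 2
      = C (A 0) * X 0 ^ 2 + C (A 1) * X 1 ^ 2 + C (A 2) * (X 2 ^ 2 : MvPolynomial (Fin 3) ℂ) :=
    sum_dist (fun x => C (A x) * X x ^ 2 : Fin 3 → MvPolynomial (Fin 3) ℂ) (dist_val v)
  have hsum2 : C (μ (val v 0).1) * X (val v 0).1 + C (μ (val v 1).1) * X (val v 1).1
      + C (μ (val v 2).1) * X (val v 2).1
      = C (μ 0) * X 0 + C (μ 1) * X 1 + C (μ 2) * (X 2 : MvPolynomial (Fin 3) ℂ) :=
    sum_dist (fun x => C (μ x) * X x : Fin 3 → MvPolynomial (Fin 3) ℂ) (dist_val v)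
  have hsum3 : C (l (val v 0).1 (val v 1).1) * (X (val v 0).1 * X (val v 1).1)
      + C (l (val v 1).1 (val v 2).1) * (X (val v 1).1 * X (val v 2).1)
      + C (l (val v 0).1 (val v 2).1) * (X (val v 0).1 * X (val v 2).1)
      = C (l 0 1) * (X 0 * X 1) + C (l 1 2) * (X 1 * X 2)
        + C (l 0 2) * (X 0 * X 2 : MvPolynomial (Fin 3) ℂ) := by
    obtain ⟨h1, h2, h3⟩ := dist_val v
    have l10 := hl 1 0
    have l20 := hl 2 0
    have l21 := hl 2 1
    clear e11 e22 e33 e12 e13 e23 hv hsum1 hsum2 h k0 k1 k2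
    generalize (val v 0).1 = x at *
    generalize (val v 1).1 = y at *
    generalize (val v 2).1 = z at *
    fin_cases x <;> fin_cases y <;> fin_cases z <;>
      first
      | exact absurd rfl h1
      | exact absurd rfl h2
      | exact absurd rfl h3
      | (simp only [Fin.zero_eta, Fin.mk_one, Fin.reduceFinMk, l10, l20, l21] <;> ring)
  have u0 : (C (sg (val v 0)) * C (sg (val v 0)) : MvPolynomial (Fin 3) ℂ) = 1 := by
    rw [← C_mul, sg_mul_self, C_1]
  have u1 : (C (sg (val v 1)) * C (sg (val v 1)) : MvPolynomial (Fin 3) ℂ) = 1 := by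
    rw [← C_mul, sg_mul_self, C_1]
  have u2 : (C (sg (val v 2)) * C (sg (val v 2)) : MvPolynomial (Fin 3) ℂ) = 1 := by
    rw [← C_mul, sg_mul_self, C_1]
  rw [← k0, ← k1, ← k2] at hsum1 hsum2 hsum3
  rw [hv, e11, e22, e33, e12, e13, e23, dl, ← hsum1, ← hsum2, add_assoc (_ + _ + _), add_assoc (_ + _ + _)]
  simp only [C_add, C_mul]
  linear_combination hsum3 - (C (A (val v 0).1) * sVar (val v 0) ^ 2 + C (μ (val v 0).1)
      * C (sg (val v 1)) * C (sg (val v 2)) * sVar (val v 0) * sVar (val v 2)) * u0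
    - (C (A (val v 1).1) * sVar (val v 1) ^ 2 + C (μ (val v 1).1)
      * C (sg (val v 0)) * C (sg (val v 2)) * sVar (val v 1) * sVar (val v 2)) * u1
    - (C (A (val v 2).1) * sVar (val v 2) ^ 2 + C (μ (val v 2).1)
      * C (sg (val v 0)) * C (sg (val v 1)) * sVar (val v 2) * sVar (val v 2)) * u2

end Pool.Agent.MP_513174_co
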