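import Pool.Agent.MP_513174_co.Deg2

namespace Pool.Agent.MP_513174_co

open MvPolynomial

theorem polyAct_form_s12 (v : SignedPerm 3) :
    polyAct v s12.form = sVar (val v 0) - sVar (val v 1) := by
  have h : s12.form = X 0 - X 1 := by
    simp [PosRoot.form, s12, PosRoot.vec, Fin.sum_univ_three, Pi.single_apply]
    ring
  rw [h, map_sub, polyAct_X, polyAct_X]; rfl

theorem polyAct_form_s23 (v : SignedPerm 3) :
    polyAct v s23.form = sVar (val v 1) - sVar (val v 2) := by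
  have h : s23.form = X 1 - X 2 := by
    simp [PosRoot.form, s23, PosRoot.vec, Fin.sum_univ_three, Pi.single_apply]
    ring
  rw [h, map_sub, polyAct_X, polyAct_X]; rfl

theorem polyAct_form_s13 (v : SignedPerm 3) :
    polyAct v s13.form = sVar (val v 0) - sVar (val v 2) := by
  have h : s13.form = X 0 - X 2 := by
    simp [PosRoot.form, s13, PosRoot.vec, Fin.sum_univ_three, Pi.single_apply]
    ring
  rw [h, map_sub, polyAct_X, polyAct_X]; rfl

theorem polyAct_form_n23 (v : SignedPerm 3) :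
    polyAct v n23.form = sVar (val v 1) + sVar (val v 2) := by
  have h : n23.form = X 1 + X 2 := by
    simp [PosRoot.form, n23, PosRoot.vec, Fin.sum_univ_three, Pi.single_apply]
  rw [h, map_add, polyAct_X, polyAct_X]; rfl

theorem polyAct_form_n13 (v : SignedPerm 3) :
    polyAct v n13.form = sVar (val v 0) + sVar (val v 2) := by
  have h : n13.form = X 0 + X 2 := by
    simp [PosRoot.form, n13, PosRoot.vec, Fin.sum_univ_three, Pi.single_apply]
  rw [h, map_add, polyAct_X, polyAct_X]; rfl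

theorem polyAct_form_t3 (v : SignedPerm 3) :
    polyAct v t3.form = C 2 * sVar (val v 2) := by
  have h : t3.form = C 2 * X 2 := by
    simp [PosRoot.form, t3, PosRoot.vec, Fin.sum_univ_three, Pi.single_apply]
  rw [h, map_mul, polyAct_X]
  simp [polyAct, algebraMap_eq, val]

/-- A criterion for membership in the spline ring of `H0`. -/
theorem mem_splineRing_H0 {ρ : SignedPerm 3 → MvPolynomial (Fin 3) ℂ}
    (h12 : ∀ v, sVar (val v 0) - sVar (val v 1) ∣ ρ v - ρ (v * s12.refl))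
    (h23 : ∀ v, sVar (val v 1) - sVar (val v 2) ∣ ρ v - ρ (v * s23.refl))
    (h13 : ∀ v, sVar (val v 0) - sVar (val v 2) ∣ ρ v - ρ (v * s13.refl))
    (ht : ∀ v, sVar (val v 2) ∣ ρ v - ρ (v * t3.refl))
    (hn23 : ∀ v, sVar (val v 1) + sVar (val v 2) ∣ ρ v - ρ (v * n23.refl))
    (hn13 : ∀ v, sVar (val v 0) + sVar (val v 2) ∣ ρ v - ρ (v * n13.refl)) :
    ρ ∈ splineRing H0 := by
  intro α hα v
  rw [Ideal.mem_span_singleton]
  rcases roots_H0_cases hα with rfl | rfl | rfl | rfl | rfl | rfl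
  · rw [polyAct_form_s12]; exact h12 v
  · rw [polyAct_form_s23]; exact h23 v
  · rw [polyAct_form_s13]; exact h13 v
  · rw [polyAct_form_t3]
    obtain ⟨r, hr⟩ := ht v
    rw [hr]
    refine ⟨C (1 / 2) * r, ?_⟩
    have : (C 2 * C (1 / 2) : MvPolynomial (Fin 3) ℂ) = 1 := by
      rw [← C_mul]; norm_num
    linear_combination (- (sVar (val v 2) * r)) * this
  · rw [polyAct_form_n23]; exact hn23 v
  · rw [polyAct_form_n13]; exact hn13 v

/-- The right variables. -/
noncomputable def xr (a : Fin 3) (v : SignedPerm 3) : MvPolynomial (Fin 3) ℂ := sVar (val v a)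

theorem xr_zero_mem : xr 0 ∈ splineRing H0 := by
  apply mem_splineRing_H0 <;> intro v
  · rw [xr, xr, (val_s12 v).1]
  · rw [xr, xr, (val_s23 v).1]; simp
  · rw [xr, xr, (val_s13 v).1]
  · rw [xr, xr, (val_t3 v).1]; simp
  · rw [xr, xr, (val_n23 v).1]; simp
  · rw [xr, xr, (val_n13 v).1, sVar_neg, sub_neg_eq_add]

theorem xr_one_mem : xr 1 ∈ splineRing H0 := by
  apply mem_splineRing_H0 <;> intro v
  · rw [xr, xr, (val_s12 v).2.1]; exact ⟨-1, by ring⟩
  · rw [xr, xr, (val_s23 v).2.1]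
  · rw [xr, xr, (val_s13 v).2.1]; simp
  · rw [xr, xr, (val_t3 v).2.1]; simp
  · rw [xr, xr, (val_n23 v).2.1, sVar_neg, sub_neg_eq_add]
  · rw [xr, xr, (val_n13 v).2.1]; simp

theorem xr_two_mem : xr 2 ∈ splineRing H0 := by
  apply mem_splineRing_H0 <;> intro v
  · rw [xr, xr, (val_s12 v).2.2]; simp
  · rw [xr, xr, (val_s23 v).2.2]; exact ⟨-1, by ring⟩
  · rw [xr, xr, (val_s13 v).2.2]; exact ⟨-1, by ring⟩
  · rw [xr, xr, (val_t3 v).2.2, sVar_neg]; exact ⟨2, by ring⟩
  · rw [xr, xr, (val_n23 v).2.2, sVar_neg]; exact ⟨1, by ring⟩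
  · rw [xr, xr, (val_n13 v).2.2, sVar_neg]; exact ⟨1, by ring⟩

theorem xr_mem (a : Fin 3) : xr a ∈ splineRing H0 := by
  fin_cases a
  · exact xr_zero_mem
  · exact xr_one_mem
  · exact xr_two_mem

/-- The spline `δ(v) x_{v(3)}`. -/
noncomputable def dx (v : SignedPerm 3) : MvPolynomial (Fin 3) ℂ := C (dl v) * sVar (val v 2)

theorem dx_mem : dx ∈ splineRing H0 := by
  apply mem_splineRing_H0 <;> intro v
  · have h : dl (v * s12.refl) = dl v := by
      obtain ⟨h0, h1, h2⟩ := val_s12 v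
      rw [dl, dl, h0, h1, h2]; ring
    rw [dx, dx, h, (val_s12 v).2.2]; simp
  · have h : dl (v * s23.refl) = dl v := by
      obtain ⟨h0, h1, h2⟩ := val_s23 v
      rw [dl, dl, h0, h1, h2]; ring
    rw [dx, dx, h, (val_s23 v).2.2]; exact ⟨- C (dl v), by ring⟩
  · have h : dl (v * s13.refl) = dl v := by
      obtain ⟨h0, h1, h2⟩ := val_s13 v
      rw [dl, dl, h0, h1, h2]; ring
    rw [dx, dx, h, (val_s13 v).2.2]; exact ⟨- C (dl v), by ring⟩
  · have h : dl (v * t3.refl) = - dl v := by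
      obtain ⟨h0, h1, h2⟩ := val_t3 v
      rw [dl, dl, h0, h1, h2, sg_neg]; ring
    rw [dx, dx, h, (val_t3 v).2.2, sVar_neg, C_neg]; exact ⟨0, by ring⟩
  · have h : dl (v * n23.refl) = dl v := by
      obtain ⟨h0, h1, h2⟩ := val_n23 v
      rw [dl, dl, h0, h1, h2, sg_neg, sg_neg]; ring
    rw [dx, dx, h, (val_n23 v).2.2, sVar_neg]; exact ⟨C (dl v), by ring⟩
  · have h : dl (v * n13.refl) = dl v := by
      obtain ⟨h0, h1, h2⟩ := val_n13 v
      rw [dl, dl, h0, h1, h2, sg_neg, sg_neg]; ring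
    rw [dx, dx, h, (val_n13 v).2.2, sVar_neg]; exact ⟨C (dl v), by ring⟩

/-- The spline `sgn_a(v) (x_a² - x_{v(3)}²)`, where `sgn_a(v)` is the sign with which `a` occurs
among the values of `v`. -/
noncomputable def yy (a : Fin 3) (v : SignedPerm 3) : MvPolynomial (Fin 3) ℂ :=
  C (sg (val v⁻¹ a)) * (X a ^ 2 - sVar (val v 2) ^ 2)

theorem val_inv_sg {v : SignedPerm 3} {a m : Fin 3} (h : (val v m).1 = a) :
    sg (val v⁻¹ a) = sg (val v m) := by
  have h1 : v.toPerm (m, (val v m).2) = (a, 1) := by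
    rw [apply_pair, h, Int.units_mul_self]
  have h2 : val v⁻¹ a = (m, (val v m).2) := by
    rw [val, ← h1]
    change v.toPerm⁻¹ (v.toPerm (m, (val v m).2)) = _
    simp
  rw [h2]; rfl

theorem sVar_sq (i : SIdx 3) : sVar i ^ 2 = (X i.1 ^ 2 : MvPolynomial (Fin 3) ℂ) := by
  rw [← C_sg_mul_sVar i]
  have u : (C (sg i) * C (sg i) : MvPolynomial (Fin 3) ℂ) = 1 := by
    rw [← C_mul, sg_mul_self, C_1]
  linear_combination (- sVar i ^ 2) * u

theorem yy_eq {v : SignedPerm 3} {a m : Fin 3} (h : (val v m).1 = a) :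
    yy a v = C (sg (val v m)) * (sVar (val v m) ^ 2 - sVar (val v 2) ^ 2) := by
  rw [yy, val_inv_sg h, sVar_sq (val v m), h]

theorem cases_val (v : SignedPerm 3) (a : Fin 3) :
    (val v 0).1 = a ∨ (val v 1).1 = a ∨ (val v 2).1 = a := by
  obtain ⟨h1, h2, h3⟩ := dist_val v
  generalize (val v 0).1 = x at *
  generalize (val v 1).1 = y at *
  generalize (val v 2).1 = z at *
  revert x y z a; decide

theorem yy_mem (a : Fin 3) : yy a ∈ splineRing H0 := by
  apply mem_splineRing_H0 <;> intro v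
  · obtain ⟨h0, h1, h2⟩ := val_s12 v
    rcases cases_val v a with h | h | h
    · rw [yy_eq h, yy_eq (m := 1) (by rw [h1]; exact h), h1, h2]; exact ⟨0, by ring⟩
    · rw [yy_eq h, yy_eq (m := 0) (by rw [h0]; exact h), h0, h2]; exact ⟨0, by ring⟩
    · rw [yy_eq h, yy_eq (m := 2) (by rw [h2]; exact h), h2]; exact ⟨0, by ring⟩
  · obtain ⟨h0, h1, h2⟩ := val_s23 v
    rcases cases_val v a with h | h | h
    · rw [yy_eq h, yy_eq (m := 0) (by rw [h0]; exact h), h0, h2]
      exact ⟨C (sg (val v 0)) * (sVar (val v 1) + sVar (val v 2)), by ring⟩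
    · rw [yy_eq h, yy_eq (m := 2) (by rw [h2]; exact h), h2]
      exact ⟨C (sg (val v 1)) * (sVar (val v 1) + sVar (val v 2)), by ring⟩
    · rw [yy_eq h, yy_eq (m := 1) (by rw [h1]; exact h), h1, h2]
      exact ⟨C (sg (val v 2)) * (sVar (val v 1) + sVar (val v 2)), by ring⟩
  · obtain ⟨h0, h1, h2⟩ := val_s13 v
    rcases cases_val v a with h | h | h
    · rw [yy_eq h, yy_eq (m := 2) (by rw [h2]; exact h), h2]
      exact ⟨C (sg (val v 0)) * (sVar (val v 0) + sVar (val v 2)), by ring⟩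
    · rw [yy_eq h, yy_eq (m := 1) (by rw [h1]; exact h), h1, h2]
      exact ⟨C (sg (val v 1)) * (sVar (val v 0) + sVar (val v 2)), by ring⟩
    · rw [yy_eq h, yy_eq (m := 0) (by rw [h0]; exact h), h0, h2]
      exact ⟨C (sg (val v 2)) * (sVar (val v 0) + sVar (val v 2)), by ring⟩
  · obtain ⟨h0, h1, h2⟩ := val_t3 v
    rcases cases_val v a with h | h | h
    · rw [yy_eq h, yy_eq (m := 0) (by rw [h0]; exact h), h0, h2, sVar_neg]; exact ⟨0, by ring⟩
    · rw [yy_eq h, yy_eq (m := 1) (by rw [h1]; exact h), h1, h2, sVar_neg]; exact ⟨0, by ring⟩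
    · rw [yy_eq h, yy_eq (m := 2) (by rw [h2]; exact h), h2, sVar_neg, sg_neg]
      exact ⟨0, by ring⟩
  · obtain ⟨h0, h1, h2⟩ := val_n23 v
    rcases cases_val v a with h | h | h
    · rw [yy_eq h, yy_eq (m := 0) (by rw [h0]; exact h), h0, h2, sVar_neg]
      exact ⟨C (sg (val v 0)) * (sVar (val v 1) - sVar (val v 2)), by ring⟩
    · rw [yy_eq h, yy_eq (m := 2) (by rw [h2]; exact h), h2, sVar_neg]
      exact ⟨C (sg (val v 1)) * (sVar (val v 1) - sVar (val v 2)), by ring⟩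
    · rw [yy_eq h, yy_eq (m := 1) (by rw [h1]; exact h), h1, h2, sVar_neg, sVar_neg, sg_neg, C_neg]
      exact ⟨C (sg (val v 2)) * (sVar (val v 2) - sVar (val v 1)), by ring⟩
  · obtain ⟨h0, h1, h2⟩ := val_n13 v
    rcases cases_val v a with h | h | h
    · rw [yy_eq h, yy_eq (m := 2) (by rw [h2]; exact h), h2, sVar_neg]
      exact ⟨C (sg (val v 0)) * (sVar (val v 0) - sVar (val v 2)), by ring⟩
    · rw [yy_eq h, yy_eq (m := 1) (by rw [h1]; exact h), h1, h2, sVar_neg]
      exact ⟨C (sg (val v 1)) * (sVar (val v 0) - sVar (val v 2)), by ring⟩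
    · rw [yy_eq h, yy_eq (m := 0) (by rw [h0]; exact h), h0, h2, sVar_neg, sVar_neg, sg_neg, C_neg]
      exact ⟨C (sg (val v 2)) * (sVar (val v 2) - sVar (val v 0)), by ring⟩

theorem xr_hom (a : Fin 3) (v : SignedPerm 3) : (xr a v).IsHomogeneous 1 :=
  isHomogeneous_sVar _

theorem dx_hom (v : SignedPerm 3) : (dx v).IsHomogeneous 1 :=
  (isHomogeneous_sVar _).C_mul _

theorem yy_hom (a : Fin 3) (v : SignedPerm 3) : (yy a v).IsHomogeneous 2 := by
  refine IsHomogeneous.C_mul (IsHomogeneous.sub ((isHomogeneous_X ℂ a).pow 2) ?_) _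
  exact (isHomogeneous_sVar _).pow 2

end Pool.Agent.MP_513174_co
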