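import Pool.Agent.MP_513174_co.Triple

namespace Pool.Agent.MP_513174_co

open Matrix

theorem mem_gLie_iff {n : ℕ} (A : Mat n) :
    A ∈ gLie n ↔ Aᵀ * Matrix.J (Fin n) ℂ = Matrix.J (Fin n) ℂ * (-A) := by
  rw [gLie, mem_skewAdjointMatricesSubmodule]
  rfl

theorem gLie_entries {n : ℕ} {A : Mat n} (hA : A ∈ gLie n) (i j : Fin n) :
    A (Sum.inr i) (Sum.inl j) = A (Sum.inr j) (Sum.inl i) ∧
    A (Sum.inr i) (Sum.inr j) = - A (Sum.inl j) (Sum.inl i) := by
  rw [mem_gLie_iff] at hA
  constructor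
  · have h := congrFun (congrFun hA (Sum.inl j)) (Sum.inl i)
    simp [Matrix.mul_apply, Matrix.J, Matrix.fromBlocks, Matrix.one_apply] at h
    exact h
  · have h := congrFun (congrFun hA (Sum.inr j)) (Sum.inl i)
    simp [Matrix.mul_apply, Matrix.J, Matrix.fromBlocks, Matrix.one_apply] at h
    exact h

theorem gLie_bracket {n : ℕ} {A B : Mat n} (hA : A ∈ gLie n) (hB : B ∈ gLie n) :
    A * B - B * A ∈ gLie n := by
  rw [mem_gLie_iff] at *
  rw [Matrix.transpose_sub, Matrix.transpose_mul, Matrix.transpose_mul, Matrix.sub_mul,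
    Matrix.mul_assoc, Matrix.mul_assoc, hA, hB, ← Matrix.mul_assoc, ← Matrix.mul_assoc, hA, hB]
  noncomm_ring

/-- the weight of a coordinate -/
def cw {n : ℕ} : Fin n ⊕ Fin n → Fin n → ℤ
  | Sum.inl i => Pi.single i 1
  | Sum.inr i => - Pi.single i 1

theorem torus_entry {n : ℕ} (t : Fin n → ℂ) (A : Mat n) (p q : Fin n ⊕ Fin n) :
    (torusElt t * A - A * torusElt t) p q
      = (∑ i, ((cw p i : ℂ) - (cw q i : ℂ)) * t i) * A p q := by
  have h : ∀ p : Fin n ⊕ Fin n, Sum.elim t (-t) p = ∑ i, (cw p i : ℂ) * t i := by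
    rintro (i | i)
    · simp [cw, Pi.single_apply]
    · simp [cw, Pi.single_apply]
  simp only [torusElt, Matrix.sub_apply, Matrix.diagonal_mul, Matrix.mul_diagonal]
  rw [h p, h q]
  simp only [sub_mul, Finset.sum_sub_distrib]
  ring

theorem weight_entry {n : ℕ} {β : Fin n → ℤ} {A : Mat n} (hA : A ∈ weightSpace β)
    (p q : Fin n ⊕ Fin n) (h : cw p - cw q ≠ β) : A p q = 0 := by
  obtain ⟨i, hi⟩ := Function.ne_iff.1 h
  have h1 := (mem_weightSpace.1 hA).2 (Pi.single i 1)
  have h2 := congrFun (congrFun h1 p) q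
  rw [torus_entry] at h2
  simp [Pi.single_apply, Matrix.smul_apply] at h2
  have h3 : ((cw p i : ℂ) - (cw q i : ℂ) - (β i : ℂ)) * A p q = 0 := by
    rw [sub_mul, sub_eq_zero]
    rcases h2 with h2 | h2
    · rw [h2]
    · rw [h2]; simp
  rcases mul_eq_zero.1 h3 with h4 | h4
  · exfalso
    apply hi
    have : (((cw p i - cw q i - β i : ℤ)) : ℂ) = 0 := by push_cast; exact h4
    have h5 : cw p i - cw q i - β i = 0 := by exact_mod_cast this
    simp only [Pi.sub_apply]
    omega
  · exact h4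

/-- Block upper triangularity of the Borel. -/
theorem borel_entries {A : Mat 3} (hA : A ∈ borel 3) :
    (∀ i j, A (Sum.inr i) (Sum.inl j) = 0) ∧
    (∀ i j, j < i → A (Sum.inl i) (Sum.inl j) = 0) := by
  let U : Submodule ℂ (Mat 3) :=
    { carrier := {A | (∀ i j, A (Sum.inr i) (Sum.inl j) = 0) ∧
        (∀ i j, j < i → A (Sum.inl i) (Sum.inl j) = 0)}
      add_mem' := by
        rintro A B ⟨h1, h2⟩ ⟨h3, h4⟩
        exact ⟨fun i j => by simp [h1, h3], fun i j hij => by simp [h2 i j hij, h4 i j hij]⟩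
      zero_mem' := ⟨fun i j => rfl, fun i j _ => rfl⟩
      smul_mem' := by
        rintro c A ⟨h1, h2⟩
        exact ⟨fun i j => by simp [h1], fun i j hij => by simp [h2 i j hij]⟩ }
  have hU : borel 3 ≤ U := by
    refine sup_le ?_ (iSup_le ?_)
    · intro A hA
      refine ⟨fun i j => weight_entry hA _ _ ?_, fun i j hij => weight_entry hA _ _ ?_⟩
      · revert i j; decide
      · revert i j; decide
    · intro α A hA
      refine ⟨fun i j => weight_entry hA _ _ ?_, fun i j hij => weight_entry hA _ _ ?_⟩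
      · clear hA
        cases α with
        | sub a b h => revert a b i j; decide
        | add a b h => revert a b i j; decide
        | dbl a => revert a i j; decide
      · clear hA
        cases α with
        | sub a b h => revert a b i j; decide
        | add a b h => revert a b i j; decide
        | dbl a => revert a i j; decide
  exact hU hA

/-- The Hessenberg space: all `A ∈ sp_6` whose lower left block vanishes at the positions
`(1,1), (1,2), (2,2)`. -/
noncomputable def H0 : HessenbergSpace 3 where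
  carrier :=
    { carrier := {A | A ∈ gLie 3 ∧ A (Sum.inr 0) (Sum.inl 0) = 0 ∧ A (Sum.inr 0) (Sum.inl 1) = 0 ∧
        A (Sum.inr 1) (Sum.inl 1) = 0}
      add_mem' := by
        rintro A B ⟨h0, h1, h2, h3⟩ ⟨g0, g1, g2, g3⟩
        exact ⟨add_mem h0 g0, by simp [h1, g1], by simp [h2, g2], by simp [h3, g3]⟩
      zero_mem' := ⟨zero_mem _, rfl, rfl, rfl⟩
      smul_mem' := by
        rintro c A ⟨h0, h1, h2, h3⟩
        exact ⟨(gLie 3).smul_mem c h0, by simp [h1], by simp [h2], by simp [h3]⟩ }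
  borel_le := by
    intro A hA
    have h := borel_entries hA
    refine ⟨?_, h.1 _ _, h.1 _ _, h.1 _ _⟩
    have hle : borel 3 ≤ gLie 3 := sup_le (fun A hA => hA.1) (iSup_le fun α A hA => hA.1)
    exact hle hA
  le_gLie := fun A hA => hA.1
  lie_mem := by
    intro A hA B hB
    obtain ⟨h1, h2⟩ := borel_entries hA
    have hAg : A ∈ gLie 3 := by
      have hle : borel 3 ≤ gLie 3 := sup_le (fun A hA => hA.1) (iSup_le fun α A hA => hA.1)
      exact hle hA
    obtain ⟨hBg, b1, b2, b3⟩ := hB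
    have b2' : B (Sum.inr 1) (Sum.inl 0) = 0 := by rw [(gLie_entries hBg 1 0).1, b2]
    have h2' : ∀ i j : Fin 3, i < j → A (Sum.inr i) (Sum.inr j) = 0 := by
      intro i j hij
      rw [(gLie_entries hAg i j).2, h2 j i hij, neg_zero]
    refine ⟨gLie_bracket hAg hBg, ?_, ?_, ?_⟩ <;>
      simp [Matrix.mul_apply, Fin.sum_univ_three, h1, b1, b2, b3, b2', h2 1 0 (by decide),
        h2 2 0 (by decide), h2 2 1 (by decide), h2' 0 1 (by decide), h2' 0 2 (by decide),
        h2' 1 2 (by decide)]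

theorem mem_roots_H0 : s12 ∈ H0.roots ∧ s23 ∈ H0.roots ∧ s13 ∈ H0.roots ∧ t3 ∈ H0.roots ∧
    n23 ∈ H0.roots ∧ n13 ∈ H0.roots := by
  refine ⟨?_, ?_, ?_, ?_, ?_, ?_⟩ <;>
  · intro A hA
    refine ⟨hA.1, weight_entry hA _ _ (by decide), weight_entry hA _ _ (by decide),
      weight_entry hA _ _ (by decide)⟩

theorem not_mem_roots_dbl0 : PosRoot.dbl 0 ∉ H0.roots := by
  intro h
  have hA : (Matrix.single (Sum.inr 0) (Sum.inl 0) (1 : ℂ) : Mat 3) ∈
      weightSpace (-(PosRoot.dbl 0 : PosRoot 3).vec) := by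
    refine mem_weightSpace.2 ⟨?_, ?_⟩
    · rw [mem_gLie_iff]
      ext p q
      rcases p with p | p <;> rcases q with q | q <;> fin_cases p <;> fin_cases q <;>
        simp [Matrix.mul_apply, Matrix.J, Matrix.fromBlocks, Matrix.one_apply, Matrix.single_apply]
    · intro t
      ext p q
      rw [torus_entry, Matrix.smul_apply, smul_eq_mul]
      rcases p with p | p <;> rcases q with q | q <;> fin_cases p <;> fin_cases q <;>
        simp [cw, PosRoot.vec, Pi.single_apply, Matrix.single_apply, Fin.sum_univ_three]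
      all_goals ring
  obtain ⟨-, h1, -, -⟩ := h hA
  simp at h1

theorem not_mem_roots_dbl1 : PosRoot.dbl 1 ∉ H0.roots := by
  intro h
  have hA : (Matrix.single (Sum.inr 1) (Sum.inl 1) (1 : ℂ) : Mat 3) ∈
      weightSpace (-(PosRoot.dbl 1 : PosRoot 3).vec) := by
    refine mem_weightSpace.2 ⟨?_, ?_⟩
    · rw [mem_gLie_iff]
      ext p q
      rcases p with p | p <;> rcases q with q | q <;> fin_cases p <;> fin_cases q <;>
        simp [Matrix.mul_apply, Matrix.J, Matrix.fromBlocks, Matrix.one_apply, Matrix.single_apply]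
    · intro t
      ext p q
      rw [torus_entry, Matrix.smul_apply, smul_eq_mul]
      rcases p with p | p <;> rcases q with q | q <;> fin_cases p <;> fin_cases q <;>
        simp [cw, PosRoot.vec, Pi.single_apply, Matrix.single_apply, Fin.sum_univ_three]
      all_goals ring
  obtain ⟨-, -, -, h3⟩ := h hA
  simp at h3

theorem not_mem_roots_add (h01 : (0 : Fin 3) < 1) : PosRoot.add 0 1 h01 ∉ H0.roots := by
  intro h
  have hA : (Matrix.single (Sum.inr 0) (Sum.inl 1) (1 : ℂ) +
      Matrix.single (Sum.inr 1) (Sum.inl 0) (1 : ℂ) : Mat 3) ∈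
      weightSpace (-(PosRoot.add 0 1 h01).vec) := by
    refine mem_weightSpace.2 ⟨?_, ?_⟩
    · rw [mem_gLie_iff]
      ext p q
      rcases p with p | p <;> rcases q with q | q <;> fin_cases p <;> fin_cases q <;>
        simp [Matrix.mul_apply, Matrix.J, Matrix.fromBlocks, Matrix.one_apply, Matrix.single_apply]
    · intro t
      ext p q
      rw [torus_entry, Matrix.smul_apply, smul_eq_mul]
      rcases p with p | p <;> rcases q with q | q <;> fin_cases p <;> fin_cases q <;>
        simp [cw, PosRoot.vec, Pi.single_apply, Fin.sum_univ_three]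
  obtain ⟨-, -, h2, -⟩ := h hA
  simp at h2

theorem roots_H0_cases {α : PosRoot 3} (hα : α ∈ H0.roots) :
    α = s12 ∨ α = s23 ∨ α = s13 ∨ α = t3 ∨ α = n23 ∨ α = n13 := by
  cases α with
  | sub a b h =>
    have : (a = 0 ∧ b = 1) ∨ (a = 1 ∧ b = 2) ∨ (a = 0 ∧ b = 2) := by
      clear hα; revert a b; decide
    rcases this with ⟨rfl, rfl⟩ | ⟨rfl, rfl⟩ | ⟨rfl, rfl⟩
    · left; rfl
    · right; left; rfl
    · right; right; left; rfl
  | add a b h =>
    have : (a = 0 ∧ b = 1) ∨ (a = 1 ∧ b = 2) ∨ (a = 0 ∧ b = 2) := by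
      clear hα; revert a b; decide
    rcases this with ⟨rfl, rfl⟩ | ⟨rfl, rfl⟩ | ⟨rfl, rfl⟩
    · exact absurd hα (not_mem_roots_add h)
    · right; right; right; right; left; rfl
    · right; right; right; right; right; rfl
  | dbl a =>
    have : a = 0 ∨ a = 1 ∨ a = 2 := by
      clear hα; revert a; decide
    rcases this with rfl | rfl | rfl
    · exact absurd hα not_mem_roots_dbl0
    · exact absurd hα not_mem_roots_dbl1
    · right; right; right; left; rfl

end Pool.Agent.MP_513174_co
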