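import Pool.Agent.MP_513174_co.Expl

namespace Pool.Agent.MP_513174_co

open MvPolynomial

/-- the first derivatives at the origin -/
noncomputable def d1 (a : Fin 3) (q : MvPolynomial (Fin 3) ℂ) : ℂ := eval 0 (pderiv a q)

/-- the value at the origin -/
noncomputable def d0 (q : MvPolynomial (Fin 3) ℂ) : ℂ := eval 0 q

/-- the second derivatives at the origin -/
noncomputable def d2 (a b : Fin 3) (q : MvPolynomial (Fin 3) ℂ) : ℂ :=
  eval 0 (pderiv a (pderiv b q))

theorem d0_mul (p q : MvPolynomial (Fin 3) ℂ) : d0 (p * q) = d0 p * d0 q := by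
  simp [d0]

theorem d1_mul (a : Fin 3) (p q : MvPolynomial (Fin 3) ℂ) :
    d1 a (p * q) = d1 a p * d0 q + d0 p * d1 a q := by
  simp [d1, d0, Derivation.leibniz]
  ring

theorem d2_mul (a b : Fin 3) (p q : MvPolynomial (Fin 3) ℂ) :
    d2 a b (p * q) = d2 a b p * d0 q + d1 a p * d1 b q + d1 b p * d1 a q + d0 p * d2 a b q := by
  simp [d2, d1, d0, Derivation.leibniz]
  ring

theorem d0_add (p q : MvPolynomial (Fin 3) ℂ) : d0 (p + q) = d0 p + d0 q := by
  simp [d0]

theorem d1_add (a : Fin 3) (p q : MvPolynomial (Fin 3) ℂ) : d1 a (p + q) = d1 a p + d1 a q := by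
  simp [d1]

theorem d2_add (a b : Fin 3) (p q : MvPolynomial (Fin 3) ℂ) :
    d2 a b (p + q) = d2 a b p + d2 a b q := by
  simp [d2]

theorem d0_sub (p q : MvPolynomial (Fin 3) ℂ) : d0 (p - q) = d0 p - d0 q := by
  simp [d0]

theorem d1_sub (a : Fin 3) (p q : MvPolynomial (Fin 3) ℂ) : d1 a (p - q) = d1 a p - d1 a q := by
  simp [d1]

theorem d2_smul (a b : Fin 3) (c : ℂ) (q : MvPolynomial (Fin 3) ℂ) :
    d2 a b (c • q) = c * d2 a b q := by
  simp [d2]

theorem d0_C (c : ℂ) : d0 (C c) = c := by simp [d0]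

theorem d1_C (a : Fin 3) (c : ℂ) : d1 a (C c) = 0 := by simp [d1]

theorem d2_C (a b : Fin 3) (c : ℂ) : d2 a b (C c) = 0 := by simp [d2]

theorem d0_X (b : Fin 3) : d0 (X b) = 0 := by simp [d0]

theorem d1_X (a b : Fin 3) : d1 a (X b) = if b = a then 1 else 0 := by
  simp only [d1, pderiv_X, Pi.single_apply]
  split_ifs <;> simp_all

theorem d2_X (a b c : Fin 3) : d2 a b (X c) = 0 := by
  simp only [d2, pderiv_X, Pi.single_apply]
  split_ifs <;> simp

theorem d0_sVar (i : SIdx 3) : d0 (sVar i) = 0 := by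
  rw [sVar, d0_mul, d0_X, mul_zero]

theorem d1_sVar (a : Fin 3) (i : SIdx 3) : d1 a (sVar i) = if i.1 = a then sg i else 0 := by
  rw [sVar, d1_mul, d0_X, d1_X, mul_zero, zero_add, d0_C]
  split_ifs <;> simp [sg]

theorem d2_sVar (a b : Fin 3) (i : SIdx 3) : d2 a b (sVar i) = 0 := by
  rw [sVar, d2_mul, d0_X, d2_X, d1_C, d1_C]
  simp

/-- the linear part -/
noncomputable def lin (q : MvPolynomial (Fin 3) ℂ) : MvPolynomial (Fin 3) ℂ :=
  C (d1 0 q) * X 0 + C (d1 1 q) * X 1 + C (d1 2 q) * X 2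

theorem lin_mul (p q : MvPolynomial (Fin 3) ℂ) :
    lin (p * q) = C (d0 q) * lin p + C (d0 p) * lin q := by
  simp only [lin, d1_mul, C_add, C_mul]
  ring

theorem lin_sub (p q : MvPolynomial (Fin 3) ℂ) : lin (p - q) = lin p - lin q := by
  simp only [lin, d1_sub, C_sub]
  ring

theorem lin_hom (q : MvPolynomial (Fin 3) ℂ) : (lin q).IsHomogeneous 1 := by
  unfold lin
  exact ((isHomogeneous_C_mul_X _ _).add (isHomogeneous_C_mul_X _ _)).add
    (isHomogeneous_C_mul_X _ _)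

theorem lin_of_hom {p : MvPolynomial (Fin 3) ℂ} (hp : p.IsHomogeneous 1) : lin p = p := by
  obtain ⟨c1, c2, c3, rfl⟩ := deg1_form hp
  simp [lin, d1_add, d1_mul, d1_C, d0_C, d0_X, d1_X]

theorem d0_of_hom {p : MvPolynomial (Fin 3) ℂ} {d : ℕ} (hd : 0 < d) (hp : p.IsHomogeneous d) :
    d0 p = 0 := by
  rw [d0, MvPolynomial.eval_zero]
  exact hp.coeff_eq_zero (by simp; omega)

theorem form_hom (α : PosRoot 3) : α.form.IsHomogeneous 1 := by
  unfold PosRoot.form
  apply IsHomogeneous.sum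
  intro i _
  exact isHomogeneous_C_mul_X _ _

theorem lin_spline {H : HessenbergSpace 3} {τ : SignedPerm 3 → MvPolynomial (Fin 3) ℂ}
    (hτ : τ ∈ splineRing H) : (fun v => lin (τ v)) ∈ splineDeg H 1 := by
  refine ⟨?_, fun v => lin_hom _⟩
  intro α hα v
  have h := hτ α hα v
  rw [Ideal.mem_span_singleton] at h ⊢
  obtain ⟨r, hr⟩ := h
  have hf := polyAct_isHomogeneous v (form_hom α)
  refine ⟨C (d0 r), ?_⟩
  rw [← lin_sub, hr, lin_mul, d0_of_hom one_pos hf, lin_of_hom hf, C_0, zero_mul, add_zero,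
    mul_comm]

theorem d0_edge {H : HessenbergSpace 3} {τ : SignedPerm 3 → MvPolynomial (Fin 3) ℂ}
    (hτ : τ ∈ splineRing H) {α : PosRoot 3} (hα : α ∈ H.roots) (v : SignedPerm 3) :
    d0 (τ (v * α.refl)) = d0 (τ v) := by
  have h := hτ α hα v
  rw [Ideal.mem_span_singleton] at h
  obtain ⟨r, hr⟩ := h
  have hf := polyAct_isHomogeneous v (form_hom α)
  have h2 := congrArg d0 hr
  rw [d0_sub, d0_mul, d0_of_hom one_pos hf, zero_mul, sub_eq_zero] at h2
  exact h2.symm

theorem d0_const {τ : SignedPerm 3 → MvPolynomial (Fin 3) ℂ} (hτ : τ ∈ splineRing H0)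
    (v : SignedPerm 3) : d0 (τ v) = d0 (τ (ofTriple (0, 1) (1, 1) (2, 1))) := by
  have A : ∀ i j k : SIdx 3, Dist i j k → d0 (τ (ofTriple j i k)) = d0 (τ (ofTriple i j k)) := by
    intro i j k h
    rw [← mul_s12 h]; exact d0_edge hτ mem_roots_H0.1 _
  have B : ∀ i j k : SIdx 3, Dist i j k → d0 (τ (ofTriple i k j)) = d0 (τ (ofTriple i j k)) := by
    intro i j k h
    rw [← mul_s23 h]; exact d0_edge hτ mem_roots_H0.2.1 _
  have T : ∀ i j k : SIdx 3, Dist i j k →
      d0 (τ (ofTriple i j (neg k))) = d0 (τ (ofTriple i j k)) := by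
    intro i j k h
    rw [← mul_t3 h]; exact d0_edge hτ mem_roots_H0.2.2.2.1 _
  have T3 : ∀ i j k : SIdx 3, Dist i j k →
      d0 (τ (ofTriple i j k)) = d0 (τ (ofTriple i j (ab k))) := by
    intro i j k h
    rcases sidx_cases k with ⟨hk, -⟩ | ⟨hk, -⟩
    · rw [← hk]
    · conv_lhs => rw [hk]
      exact T i j (ab k) h
  have T2 : ∀ i j k : SIdx 3, Dist i j k →
      d0 (τ (ofTriple i j k)) = d0 (τ (ofTriple i (ab j) k)) := by
    intro i j k h
    rw [← B i j k h, T3 i k j h.s23]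
    exact (B i k (ab j) h.s23).symm
  have T1 : ∀ i j k : SIdx 3, Dist i j k →
      d0 (τ (ofTriple i j k)) = d0 (τ (ofTriple (ab i) j k)) := by
    intro i j k h
    rw [← A i j k h, T2 j i k h.s12]
    exact (A j (ab i) k h.s12).symm
  have h := dist_val v
  rw [eq_ofTriple' v, T3 _ _ _ h, T2 _ _ _ (show Dist _ _ (ab _) from h),
    T1 _ _ _ (show Dist _ (ab _) (ab _) from h)]
  obtain ⟨h1, h2, h3⟩ := h
  unfold ab
  generalize (val v 0).1 = x at *
  generalize (val v 1).1 = y at *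
  generalize (val v 2).1 = z at *
  have e1 : d0 (τ (ofTriple (1, 1) (0, 1) (2, 1))) = d0 (τ (ofTriple (0, 1) (1, 1) (2, 1))) :=
    A _ _ _ (by decide)
  have e2 : d0 (τ (ofTriple (0, 1) (2, 1) (1, 1))) = d0 (τ (ofTriple (0, 1) (1, 1) (2, 1))) :=
    B _ _ _ (by decide)
  have e3 : d0 (τ (ofTriple (2, 1) (0, 1) (1, 1))) = d0 (τ (ofTriple (0, 1) (2, 1) (1, 1))) :=
    A _ _ _ (by decide)
  have e4 : d0 (τ (ofTriple (1, 1) (2, 1) (0, 1))) = d0 (τ (ofTriple (1, 1) (0, 1) (2, 1))) :=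
    B _ _ _ (by decide)
  have e5 : d0 (τ (ofTriple (2, 1) (1, 1) (0, 1))) = d0 (τ (ofTriple (1, 1) (2, 1) (0, 1))) :=
    A _ _ _ (by decide)
  fin_cases x <;> fin_cases y <;> fin_cases z <;>
    first
    | exact absurd rfl h1
    | exact absurd rfl h2
    | exact absurd rfl h3
    | rfl
    | exact e1
    | exact e2
    | exact e3.trans e2
    | exact e4.trans e1
    | exact e5.trans (e4.trans e1)

/-- The derivative of `x_i` in the direction `a`. -/
noncomputable def dd (a : Fin 3) (i : SIdx 3) : ℂ := if i.1 = a then sg i else 0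

/-- The 1-jets of splines at the origin. -/
theorem jet {τ : SignedPerm 3 → MvPolynomial (Fin 3) ℂ} (hτ : τ ∈ splineRing H0) :
    ∃ (k : ℂ) (P : Fin 3 → ℂ) (q1 q2 q3 r : ℂ), (∀ w, d0 (τ w) = k) ∧
      ∀ w a, d1 a (τ w) = P a + q1 * dd a (val w 0) + q2 * dd a (val w 1)
        + q3 * dd a (val w 2) + r * dl w * dd a (val w 2) := by
  obtain ⟨p, q1, q2, q3, r, h⟩ := splines_deg1 (lin_spline hτ)
  refine ⟨_, p, q1, q2, q3, r, fun w => d0_const hτ w, fun w a => ?_⟩
  have h2 := congrArg (d1 a) (h w)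
  simp only [lin, d1_add, d1_mul, d1_C, d0_C, d0_X, d1_X, d1_sVar, d0_sVar, zero_mul, mul_zero,
    zero_add, add_zero] at h2
  unfold dd
  fin_cases a
  · simpa using h2
  · simpa using h2
  · simpa using h2

/-- A linear functional killing the products of splines with constant splines kills the ideal. -/
theorem kills_of (T : Fam 3 →ₗ[ℂ] ℂ)
    (hT : ∀ τ ∈ splineRing H0, ∀ p : MvPolynomial (Fin 3) ℂ, d0 p = 0 →
      T (fun w => τ w * p) = 0) {ρ : SplineRing H0} (hρ : ρ ∈ constIdeal H0) :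
    T ρ.1 = 0 := by
  have key : ∀ τ : SplineRing H0, T (τ * ρ).1 = 0 := by
    unfold constIdeal at hρ
    induction hρ using Submodule.span_induction with
    | mem x hx =>
      obtain ⟨d, p, hd, hp, rfl⟩ := hx
      intro τ
      exact hT τ.1 τ.2 p (d0_of_hom hd hp)
    | zero =>
      intro τ
      rw [mul_zero]
      exact map_zero T
    | add x y _ _ hx hy =>
      intro τ
      rw [mul_add]
      change T ((τ * x).1 + (τ * y).1) = 0
      rw [map_add, hx τ, hy τ, add_zero]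
    | smul a x _ hx =>
      intro τ
      rw [smul_eq_mul, ← mul_assoc]
      exact hx _
  have h := key 1
  rwa [one_mul] at h

end Pool.Agent.MP_513174_co
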