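import Pool.Agent.MP_513174_co.Hess

namespace Pool.Agent.MP_513174_co

open MvPolynomial

theorem eval_sVar (t : Fin 3 → ℂ) (i : SIdx 3) : eval t (sVar i) = sg i * t i.1 := by
  simp [sVar, sg]

theorem eval_polyAct (s : SignedPerm 3) (t : Fin 3 → ℂ) (q : MvPolynomial (Fin 3) ℂ) :
    eval t (polyAct s q) = eval (fun a => eval t (sVar (val s a))) q := by
  induction q using MvPolynomial.induction_on with
  | C a => simp [polyAct]
  | add p q hp hq => rw [map_add, map_add, map_add, hp, hq]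
  | mul_X p i hp => rw [map_mul, map_mul, map_mul, hp, eval_X, polyAct_X, val]

/-- the spline in right coordinates -/
noncomputable def rc (ρ : SignedPerm 3 → MvPolynomial (Fin 3) ℂ) (v : SignedPerm 3) :
    MvPolynomial (Fin 3) ℂ := polyAct v⁻¹ (ρ v)

theorem polyAct_rc (ρ : SignedPerm 3 → MvPolynomial (Fin 3) ℂ) (v : SignedPerm 3) :
    polyAct v (rc ρ v) = ρ v := by
  rw [rc, ← polyAct_mul, mul_inv_cancel, polyAct_one]

theorem edge {H : HessenbergSpace 3} {ρ : SignedPerm 3 → MvPolynomial (Fin 3) ℂ}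
    (hρ : ρ ∈ splineRing H) {α : PosRoot 3} (hα : α ∈ H.roots) (v : SignedPerm 3)
    (t : Fin 3 → ℂ) (ht : eval t α.form = 0) :
    eval t (rc ρ v) = eval t (polyAct α.refl (rc ρ (v * α.refl))) := by
  have h := hρ α hα v
  rw [Ideal.mem_span_singleton] at h
  obtain ⟨r, hr⟩ := h
  have h2 := congrArg (polyAct v⁻¹) hr
  rw [map_sub, map_mul, ← polyAct_mul v⁻¹ v, inv_mul_cancel, polyAct_one] at h2
  have h3 : polyAct α.refl (rc ρ (v * α.refl)) = polyAct v⁻¹ (ρ (v * α.refl)) := by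
    rw [rc, ← polyAct_mul]
    congr 2
    group
  rw [h3]
  have h4 := congrArg (eval t) h2
  rw [map_sub, map_mul, ht, zero_mul, sub_eq_zero] at h4
  exact h4

theorem val_refl (s : SignedPerm 3) (a : Fin 3) : val s a = val (1 * s) a := by rw [one_mul]

theorem val_one (a : Fin 3) : val 1 a = (a, 1) := rfl

section

variable {ρ : SignedPerm 3 → MvPolynomial (Fin 3) ℂ} (hρ : ρ ∈ splineRing H0)

include hρ

theorem edge_s12 (v : SignedPerm 3) (t : Fin 3 → ℂ) (ht : t 0 = t 1) :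
    eval t (rc ρ v) = eval t (rc ρ (v * s12.refl)) := by
  rw [edge hρ mem_roots_H0.1 v t
    (by simp [PosRoot.form, s12, PosRoot.vec, Fin.sum_univ_three, Pi.single_apply, ht]),
    eval_polyAct]
  congr 1
  congr 1
  funext a
  obtain ⟨h0, h1, h2⟩ := val_s12 1
  rw [one_mul] at h0 h1 h2
  fin_cases a
  · change eval t (sVar (val s12.refl 0)) = t 0
    rw [h0, val_one, eval_sVar]; simp [sg, ht]
  · change eval t (sVar (val s12.refl 1)) = t 1
    rw [h1, val_one, eval_sVar]; simp [sg, ht]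
  · change eval t (sVar (val s12.refl 2)) = t 2
    rw [h2, val_one, eval_sVar]; simp [sg]

theorem edge_s23 (v : SignedPerm 3) (t : Fin 3 → ℂ) (ht : t 1 = t 2) :
    eval t (rc ρ v) = eval t (rc ρ (v * s23.refl)) := by
  rw [edge hρ mem_roots_H0.2.1 v t
    (by simp [PosRoot.form, s23, PosRoot.vec, Fin.sum_univ_three, Pi.single_apply, ht]),
    eval_polyAct]
  congr 1
  congr 1
  funext a
  obtain ⟨h0, h1, h2⟩ := val_s23 1
  rw [one_mul] at h0 h1 h2
  fin_cases a
  · change eval t (sVar (val s23.refl 0)) = t 0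
    rw [h0, val_one, eval_sVar]; simp [sg]
  · change eval t (sVar (val s23.refl 1)) = t 1
    rw [h1, val_one, eval_sVar]; simp [sg, ht]
  · change eval t (sVar (val s23.refl 2)) = t 2
    rw [h2, val_one, eval_sVar]; simp [sg, ht]

theorem edge_s13 (v : SignedPerm 3) (t : Fin 3 → ℂ) (ht : t 0 = t 2) :
    eval t (rc ρ v) = eval t (rc ρ (v * s13.refl)) := by
  rw [edge hρ mem_roots_H0.2.2.1 v t
    (by simp [PosRoot.form, s13, PosRoot.vec, Fin.sum_univ_three, Pi.single_apply, ht]),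
    eval_polyAct]
  congr 1
  congr 1
  funext a
  obtain ⟨h0, h1, h2⟩ := val_s13 1
  rw [one_mul] at h0 h1 h2
  fin_cases a
  · change eval t (sVar (val s13.refl 0)) = t 0
    rw [h0, val_one, eval_sVar]; simp [sg, ht]
  · change eval t (sVar (val s13.refl 1)) = t 1
    rw [h1, val_one, eval_sVar]; simp [sg]
  · change eval t (sVar (val s13.refl 2)) = t 2
    rw [h2, val_one, eval_sVar]; simp [sg, ht]

theorem edge_t3 (v : SignedPerm 3) (t : Fin 3 → ℂ) (ht : t 2 = 0) :
    eval t (rc ρ v) = eval t (rc ρ (v * t3.refl)) := by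
  rw [edge hρ mem_roots_H0.2.2.2.1 v t
    (by simp [PosRoot.form, t3, PosRoot.vec, Fin.sum_univ_three, Pi.single_apply, ht]),
    eval_polyAct]
  congr 1
  congr 1
  funext a
  obtain ⟨h0, h1, h2⟩ := val_t3 1
  rw [one_mul] at h0 h1 h2
  fin_cases a
  · change eval t (sVar (val t3.refl 0)) = t 0
    rw [h0, val_one, eval_sVar]; simp [sg]
  · change eval t (sVar (val t3.refl 1)) = t 1
    rw [h1, val_one, eval_sVar]; simp [sg]
  · change eval t (sVar (val t3.refl 2)) = t 2
    rw [h2, val_one, eval_sVar]; simp [sg, neg, ht]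

theorem edge_n23 (v : SignedPerm 3) (t : Fin 3 → ℂ) (ht : t 2 = - t 1) :
    eval t (rc ρ v) = eval t (rc ρ (v * n23.refl)) := by
  rw [edge hρ mem_roots_H0.2.2.2.2.1 v t
    (by simp [PosRoot.form, n23, PosRoot.vec, Fin.sum_univ_three, Pi.single_apply, ht]),
    eval_polyAct]
  congr 1
  congr 1
  funext a
  obtain ⟨h0, h1, h2⟩ := val_n23 1
  rw [one_mul] at h0 h1 h2
  fin_cases a
  · change eval t (sVar (val n23.refl 0)) = t 0
    rw [h0, val_one, eval_sVar]; simp [sg]
  · change eval t (sVar (val n23.refl 1)) = t 1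
    rw [h1, val_one, eval_sVar]; simp [sg, neg, ht]
  · change eval t (sVar (val n23.refl 2)) = t 2
    rw [h2, val_one, eval_sVar]; simp [sg, neg, ht]

theorem edge_n13 (v : SignedPerm 3) (t : Fin 3 → ℂ) (ht : t 2 = - t 0) :
    eval t (rc ρ v) = eval t (rc ρ (v * n13.refl)) := by
  rw [edge hρ mem_roots_H0.2.2.2.2.2 v t
    (by simp [PosRoot.form, n13, PosRoot.vec, Fin.sum_univ_three, Pi.single_apply, ht]),
    eval_polyAct]
  congr 1
  congr 1
  funext a
  obtain ⟨h0, h1, h2⟩ := val_n13 1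
  rw [one_mul] at h0 h1 h2
  fin_cases a
  · change eval t (sVar (val n13.refl 0)) = t 0
    rw [h0, val_one, eval_sVar]; simp [sg, neg, ht]
  · change eval t (sVar (val n13.refl 1)) = t 1
    rw [h1, val_one, eval_sVar]; simp [sg]
  · change eval t (sVar (val n13.refl 2)) = t 2
    rw [h2, val_one, eval_sVar]; simp [sg, neg, ht]

end

theorem deg1_form {p : MvPolynomial (Fin 3) ℂ} (hp : p.IsHomogeneous 1) :
    ∃ c1 c2 c3 : ℂ, p = C c1 * X 0 + C c2 * X 1 + C c3 * X 2 := by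
  have h : p ∈ Submodule.span ℂ (Set.range (X : Fin 3 → MvPolynomial (Fin 3) ℂ)) := by
    rw [← homogeneousSubmodule_one_eq_span_X]
    exact hp
  obtain ⟨c, hc⟩ := (Submodule.mem_span_range_iff_exists_fun ℂ).1 h
  refine ⟨c 0, c 1, c 2, ?_⟩
  rw [← hc, Fin.sum_univ_three]
  simp only [C_mul']

open scoped Pointwise in
theorem deg2_form {p : MvPolynomial (Fin 3) ℂ} (hp : p.IsHomogeneous 2) :
    ∃ c11 c12 c13 c22 c23 c33 : ℂ, p = C c11 * X 0 ^ 2 + C c12 * (X 0 * X 1) +
      C c13 * (X 0 * X 2) + C c22 * X 1 ^ 2 + C c23 * (X 1 * X 2) + C c33 * X 2 ^ 2 := by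
  have h : p ∈ Submodule.span ℂ (Set.range (X : Fin 3 → MvPolynomial (Fin 3) ℂ) *
      Set.range (X : Fin 3 → MvPolynomial (Fin 3) ℂ)) := by
    rw [← Submodule.span_mul_span, ← homogeneousSubmodule_one_eq_span_X, ← pow_two,
      homogeneousSubmodule_one_pow]
    exact hp
  induction h using Submodule.span_induction with
  | mem x hx =>
    obtain ⟨_, ⟨i, rfl⟩, _, ⟨j, rfl⟩, rfl⟩ := hx
    fin_cases i <;> fin_cases j
    · exact ⟨1, 0, 0, 0, 0, 0, by simp [pow_two]⟩
    · exact ⟨0, 1, 0, 0, 0, 0, by simp⟩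
    · exact ⟨0, 0, 1, 0, 0, 0, by simp⟩
    · exact ⟨0, 1, 0, 0, 0, 0, by
        simp only [map_zero, map_one, zero_mul, one_mul, zero_add, add_zero]
        exact mul_comm _ _⟩
    · exact ⟨0, 0, 0, 1, 0, 0, by simp [pow_two]⟩
    · exact ⟨0, 0, 0, 0, 1, 0, by simp⟩
    · exact ⟨0, 0, 1, 0, 0, 0, by
        simp only [map_zero, map_one, zero_mul, one_mul, zero_add, add_zero]
        exact mul_comm _ _⟩
    · exact ⟨0, 0, 0, 0, 1, 0, by
        simp only [map_zero, map_one, zero_mul, one_mul, zero_add, add_zero]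
        exact mul_comm _ _⟩
    · exact ⟨0, 0, 0, 0, 0, 1, by simp [pow_two]⟩
  | zero => exact ⟨0, 0, 0, 0, 0, 0, by simp⟩
  | add x y hx' hy' hx hy =>
    have hom : ∀ z ∈ Submodule.span ℂ (Set.range (X : Fin 3 → MvPolynomial (Fin 3) ℂ) *
      Set.range (X : Fin 3 → MvPolynomial (Fin 3) ℂ)), z.IsHomogeneous 2 := by
      intro z hz
      rw [← Submodule.span_mul_span, ← homogeneousSubmodule_one_eq_span_X, ← pow_two,
        homogeneousSubmodule_one_pow] at hz
      exact hz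
    obtain ⟨a1, a2, a3, a4, a5, a6, ha⟩ := hx (hom x hx')
    obtain ⟨b1, b2, b3, b4, b5, b6, hb⟩ := hy (hom y hy')
    refine ⟨a1 + b1, a2 + b2, a3 + b3, a4 + b4, a5 + b5, a6 + b6, ?_⟩
    rw [ha, hb]
    simp only [map_add]
    ring
  | smul a x hx' hx =>
    have hom : ∀ z ∈ Submodule.span ℂ (Set.range (X : Fin 3 → MvPolynomial (Fin 3) ℂ) *
      Set.range (X : Fin 3 → MvPolynomial (Fin 3) ℂ)), z.IsHomogeneous 2 := by
      intro z hz
      rw [← Submodule.span_mul_span, ← homogeneousSubmodule_one_eq_span_X, ← pow_two,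
        homogeneousSubmodule_one_pow] at hz
      exact hz
    obtain ⟨a1, a2, a3, a4, a5, a6, ha⟩ := hx (hom x hx')
    refine ⟨a * a1, a * a2, a * a3, a * a4, a * a5, a * a6, ?_⟩
    rw [← C_mul', ha]
    simp only [map_mul]
    ring

end Pool.Agent.MP_513174_co
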