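import Pool.Agent.MP_513174_co.Defs

namespace Pool.Agent.MP_513174_co

/-- pairwise distinct absolute values -/
def Dist (i j k : SIdx 3) : Prop := i.1 ≠ j.1 ∧ j.1 ≠ k.1 ∧ i.1 ≠ k.1

instance (i j k : SIdx 3) : Decidable (Dist i j k) := by unfold Dist; infer_instance

theorem neg_neg' {n : ℕ} (i : SIdx n) : neg (neg i) = i := by
  simp [neg]

theorem neg_fst {n : ℕ} (i : SIdx n) : (neg i).1 = i.1 := rfl

theorem Dist.s12 {i j k : SIdx 3} (h : Dist i j k) : Dist j i k :=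
  ⟨h.1.symm, h.2.2, h.2.1⟩

theorem Dist.s23 {i j k : SIdx 3} (h : Dist i j k) : Dist i k j :=
  ⟨h.2.2, h.2.1.symm, h.1⟩

theorem Dist.s13 {i j k : SIdx 3} (h : Dist i j k) : Dist k j i :=
  ⟨h.2.1.symm, h.1.symm, h.2.2.symm⟩

theorem Dist.n1 {i j k : SIdx 3} (h : Dist i j k) : Dist (neg i) j k := h

theorem Dist.n2 {i j k : SIdx 3} (h : Dist i j k) : Dist i (neg j) k := h

theorem Dist.n3 {i j k : SIdx 3} (h : Dist i j k) : Dist i j (neg k) := h

/-- absolute value -/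
def ab (i : SIdx 3) : SIdx 3 := (i.1, 1)

theorem sidx_cases (i : SIdx 3) : (i = ab i ∧ i.2 = 1) ∨ (i = neg (ab i) ∧ i.2 = -1) := by
  obtain ⟨x, s⟩ := i
  rcases Int.units_eq_one_or s with rfl | rfl
  · left; exact ⟨rfl, rfl⟩
  · right; exact ⟨rfl, rfl⟩

theorem fin3_cases (x y z : Fin 3) (h1 : x ≠ y) (h2 : y ≠ z) (h3 : x ≠ z) :
    (y = x + 1 ∧ z = x + 2) ∨ (y = x + 2 ∧ z = x + 1) := by
  revert x y z; decide

/-- the standard completion of the first entry -/
theorem dep_fst (f : SIdx 3 → SIdx 3 → SIdx 3 → ℂ)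
    (hn : ∀ i j k, Dist i j k → f i j (neg k) = f i j k)
    (hs : ∀ i j k, Dist i j k → f i j k = f i k j) (i j k : SIdx 3) (h : Dist i j k) :
    f i j k = f i (i.1 + 1, 1) (i.1 + 2, 1) := by
  have hn2 : ∀ i j k, Dist i j k → f i (neg j) k = f i j k := by
    intro i j k h
    rw [hs i (neg j) k h.n2, hn i k j h.s23, hs i k j h.s23]
  have habs : f i j k = f i (ab j) (ab k) := by
    rcases sidx_cases j with ⟨hj, -⟩ | ⟨hj, -⟩ <;> rcases sidx_cases k with ⟨hk, -⟩ | ⟨hk, -⟩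
    · rw [← hj, ← hk]
    · rw [← hj, hk, hn i j (ab k) h]; rfl
    · rw [← hk, hj, hn2 i (ab j) k h]; rfl
    · rw [hj, hk, hn i (neg (ab j)) (ab k) h, hn2 i (ab j) (ab k) h]; rfl
  rw [habs]
  rcases fin3_cases i.1 j.1 k.1 h.1 h.2.1 h.2.2 with ⟨hj, hk⟩ | ⟨hj, hk⟩
  · simp only [ab, hj, hk]
  · rw [hs i (ab j) (ab k) h]
    simp only [ab, hj, hk]

theorem symm3 (f : Fin 3 → Fin 3 → Fin 3 → ℂ)
    (ha : ∀ x y z, x ≠ y → y ≠ z → x ≠ z → f x y z = f y x z)
    (hb : ∀ x y z, x ≠ y → y ≠ z → x ≠ z → f x y z = f x z y)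
    (x y z : Fin 3) (h1 : x ≠ y) (h2 : y ≠ z) (h3 : x ≠ z) : f x y z = f 0 1 2 := by
  have e1 := ha 0 1 2 (by decide) (by decide) (by decide)
  have e2 := hb 0 1 2 (by decide) (by decide) (by decide)
  have e3 := hb 1 0 2 (by decide) (by decide) (by decide)
  have e4 := ha 0 2 1 (by decide) (by decide) (by decide)
  have e5 := hb 2 0 1 (by decide) (by decide) (by decide)
  revert h1 h2 h3
  fin_cases x <;> fin_cases y <;> fin_cases z <;> intro h1 h2 h3 <;>
    first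
    | exact absurd rfl h1
    | exact absurd rfl h2
    | exact absurd rfl h3
    | rfl
    | exact e1.symm
    | exact e2.symm
    | exact (e1.trans e3).symm
    | exact (e2.trans e4).symm
    | exact ((e2.trans e4).trans e5).symm

/-- value of the sign of a signed index -/
def sg (i : SIdx 3) : ℂ := ((i.2 : ℤ) : ℂ)

theorem sg_neg (i : SIdx 3) : sg (neg i) = - sg i := by simp [sg, neg]

theorem sg_ab (i : SIdx 3) : sg (ab i) = 1 := by simp [sg, ab]

theorem sg_mul_self (i : SIdx 3) : sg i * sg i = 1 := by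
  rcases sidx_cases i with ⟨-, h⟩ | ⟨-, h⟩ <;> simp [sg, h]

/-- A function of triples invariant under both swaps and the simultaneous sign change of the last
two entries depends only on the product of the signs. -/
theorem dep_sign (f : SIdx 3 → SIdx 3 → SIdx 3 → ℂ)
    (h12 : ∀ i j k, Dist i j k → f i j k = f j i k)
    (h23 : ∀ i j k, Dist i j k → f i j k = f i k j)
    (hn : ∀ i j k, Dist i j k → f i j k = f i (neg j) (neg k)) :
    ∃ e0 e1 : ℂ, ∀ i j k, Dist i j k → f i j k = e0 + e1 * (sg i * sg j * sg k) := by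
  have n12 : ∀ i j k, Dist i j k → f i j k = f (neg i) (neg j) k := by
    intro i j k h
    rw [h23 i j k h, h12 i k j h.s23, hn k i j (h.s23.s12), h12 k (neg i) (neg j) (h.s23.s12),
      h23 (neg i) k (neg j) h.s23]
  have n13 : ∀ i j k, Dist i j k → f i j k = f (neg i) j (neg k) := by
    intro i j k h
    rw [h12 i j k h, hn j i k h.s12, h12 j (neg i) (neg k) h.s12]
  have hpos : ∀ x y z : Fin 3, x ≠ y → y ≠ z → x ≠ z →
      f (x, 1) (y, 1) (z, 1) = f (0, 1) (1, 1) (2, 1) :=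
    symm3 (fun x y z => f (x, 1) (y, 1) (z, 1))
      (fun x y z h1 h2 h3 => h12 _ _ _ ⟨h1, h2, h3⟩)
      (fun x y z h1 h2 h3 => h23 _ _ _ ⟨h1, h2, h3⟩)
  have hneg : ∀ x y z : Fin 3, x ≠ y → y ≠ z → x ≠ z →
      f (x, -1) (y, 1) (z, 1) = f (0, -1) (1, 1) (2, 1) := by
    refine symm3 (fun x y z => f (x, -1) (y, 1) (z, 1)) ?_ ?_
    · intro x y z h1 h2 h3
      rw [h12 (x, -1) (y, 1) (z, 1) ⟨h1, h2, h3⟩, n12 (y, 1) (x, -1) (z, 1) ⟨h1.symm, h3, h2⟩]
      rfl
    · intro x y z h1 h2 h3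
      exact h23 _ _ _ ⟨h1, h2, h3⟩
  refine ⟨(f (0, 1) (1, 1) (2, 1) + f (0, -1) (1, 1) (2, 1)) / 2,
    (f (0, 1) (1, 1) (2, 1) - f (0, -1) (1, 1) (2, 1)) / 2, ?_⟩
  intro i j k h
  obtain ⟨x, s⟩ := i
  obtain ⟨y, t⟩ := j
  obtain ⟨z, r⟩ := k
  obtain ⟨h1, h2, h3⟩ := h
  simp only at h1 h2 h3
  have P := hpos x y z h1 h2 h3
  have N := hneg x y z h1 h2 h3
  rcases Int.units_eq_one_or s with rfl | rfl <;> rcases Int.units_eq_one_or t with rfl | rfl <;>
    rcases Int.units_eq_one_or r with rfl | rfl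
  · rw [P]; simp [sg]; ring
  · have := n13 (x, 1) (y, 1) (z, -1) ⟨h1, h2, h3⟩
    simp only [neg, neg_neg] at this
    rw [this, N]; simp [sg]; ring
  · have := n12 (x, 1) (y, -1) (z, 1) ⟨h1, h2, h3⟩
    simp only [neg, neg_neg] at this
    rw [this, N]; simp [sg]; ring
  · have := hn (x, 1) (y, -1) (z, -1) ⟨h1, h2, h3⟩
    simp only [neg, neg_neg] at this
    rw [this, P]; simp [sg]; ring
  · rw [N]; simp [sg]; ring
  · have := n13 (x, -1) (y, 1) (z, -1) ⟨h1, h2, h3⟩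
    simp only [neg, neg_neg] at this
    rw [this, P]; simp [sg]; ring
  · have := n12 (x, -1) (y, -1) (z, 1) ⟨h1, h2, h3⟩
    simp only [neg, neg_neg] at this
    rw [this, P]; simp [sg]; ring
  · have := hn (x, -1) (y, -1) (z, -1) ⟨h1, h2, h3⟩
    simp only [neg, neg_neg] at this
    rw [this, N]; simp [sg]; ring

/-- the standard completion of the second entry -/
theorem dep_snd (f : SIdx 3 → SIdx 3 → SIdx 3 → ℂ)
    (hn : ∀ i j k, Dist i j k → f i j (neg k) = f i j k)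
    (hs : ∀ i j k, Dist i j k → f i j k = f k j i) (i j k : SIdx 3) (h : Dist i j k) :
    f i j k = f (j.1 + 1, 1) j (j.1 + 2, 1) :=
  dep_fst (fun j i k => f i j k) (fun j i k h => hn i j k h.s12)
    (fun j i k h => hs i j k h.s12) j i k h.s12

theorem exists_dist_snd (j k : SIdx 3) (h : j.1 ≠ k.1) : ∃ i : SIdx 3, Dist i j k := by
  obtain ⟨y, t⟩ := j
  obtain ⟨z, r⟩ := k
  simp only at h
  have : ∃ x : Fin 3, x ≠ y ∧ y ≠ z ∧ x ≠ z := by
    revert y z; decide
  obtain ⟨x, h1, h2, h3⟩ := this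
  exact ⟨(x, 1), h1, h2, h3⟩

theorem exists_dist_thd (i j : SIdx 3) (h : i.1 ≠ j.1) : ∃ k : SIdx 3, Dist i j k := by
  obtain ⟨k, hk⟩ := exists_dist_snd i j h
  exact ⟨k, hk.s12.s23⟩

/-- A function on signed indices whose symmetrisation is constant. -/
theorem odd_part (B : SIdx 3 → ℂ)
    (h : ∀ j k : SIdx 3, j.1 ≠ k.1 → B j + B (neg j) = B k + B (neg k)) :
    ∃ (β : ℂ) (p : Fin 3 → ℂ), ∀ j, B j = β + p j.1 * sg j := by
  refine ⟨(B (0, 1) + B (0, -1)) / 2, fun m => (B (m, 1) - B (m, -1)) / 2, ?_⟩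
  have key : ∀ m : Fin 3, B (m, 1) + B (m, -1) = B (0, 1) + B (0, -1) := by
    intro m
    by_cases hm : m = 0
    · rw [hm]
    · exact h (m, 1) (0, 1) hm
  rintro ⟨m, s⟩
  have := key m
  rcases Int.units_eq_one_or s with rfl | rfl
  · simp only [sg]; push_cast
    linear_combination (1 / 2 : ℂ) * this
  · simp only [sg]; push_cast
    linear_combination (1 / 2 : ℂ) * this

/-- Structure of the splines of degree one (coefficient form). -/
theorem structA (c1 c2 c3 : SIdx 3 → SIdx 3 → SIdx 3 → ℂ)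
    (t1 : ∀ i j k, Dist i j k → c1 i j (neg k) = c1 i j k)
    (t2 : ∀ i j k, Dist i j k → c2 i j (neg k) = c2 i j k)
    (a1 : ∀ i j k, Dist i j k → c1 i j k + c2 i j k = c1 j i k + c2 j i k)
    (a2 : ∀ i j k, Dist i j k → c3 i j k = c3 j i k)
    (b1 : ∀ i j k, Dist i j k → c2 i j k + c3 i j k = c2 i k j + c3 i k j)
    (b2 : ∀ i j k, Dist i j k → c1 i j k = c1 i k j)
    (d2 : ∀ i j k, Dist i j k → c2 i j k = c2 k j i)
    (e1 : ∀ i j k, Dist i j k →
      c2 i j k - c3 i j k = c2 i (neg k) (neg j) - c3 i (neg k) (neg j)) :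
    ∃ (p : Fin 3 → ℂ) (q1 q2 q3 r : ℂ), ∀ i j k, Dist i j k →
      c1 i j k = p i.1 * sg i + q1 ∧ c2 i j k = p j.1 * sg j + q2 ∧
      c3 i j k = p k.1 * sg k + q3 + r * (sg i * sg j * sg k) := by
  -- c1 depends on the first entry only, c2 on the second only
  set A : SIdx 3 → ℂ := fun i => c1 i (i.1 + 1, 1) (i.1 + 2, 1) with hA
  set B : SIdx 3 → ℂ := fun j => c2 (j.1 + 1, 1) j (j.1 + 2, 1) with hB
  have hcA : ∀ i j k, Dist i j k → c1 i j k = A i := fun i j k h => dep_fst c1 t1 b2 i j k h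
  have hcB : ∀ i j k, Dist i j k → c2 i j k = B j := fun i j k h => dep_snd c2 t2 d2 i j k h
  have hb : ∀ i j k, Dist i j k → B j + c3 i j k = B k + c3 i k j := by
    intro i j k h
    have := b1 i j k h
    rwa [hcB _ _ _ h, hcB _ _ _ h.s23] at this
  have he : ∀ i j k, Dist i j k →
      B j - c3 i j k = B (neg k) - c3 i (neg k) (neg j) := by
    intro i j k h
    have := e1 i j k h
    rwa [hcB _ _ _ h, hcB _ _ _ h.s23.n2.n3] at this
  have ha : ∀ i j k, Dist i j k → A i + B j = A j + B i := by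
    intro i j k h
    have := a1 i j k h
    rwa [hcA _ _ _ h, hcB _ _ _ h, hcA _ _ _ h.s12, hcB _ _ _ h.s12] at this
  -- symmetrisation of B is constant
  have hsym : ∀ j k : SIdx 3, j.1 ≠ k.1 → B j + B (neg j) = B k + B (neg k) := by
    intro j k hjk
    obtain ⟨i, h⟩ := exists_dist_snd j k hjk
    have r1 := hb i j k h
    have r2 := he i k j h.s23
    have r3 := he i j k h
    have r4 := hb i (neg k) (neg j) h.s23.n2.n3
    linear_combination (1 / 2 : ℂ) * r1 - (1 / 2 : ℂ) * r2 + (1 / 2 : ℂ) * r3 - (1 / 2 : ℂ) * r4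
  obtain ⟨β, p, hp⟩ := odd_part B hsym
  -- A - B is constant
  obtain ⟨κ, hκ⟩ : ∃ κ : ℂ, ∀ i, A i = B i + κ := by
    have hK : ∀ i j : SIdx 3, i.1 ≠ j.1 → A i - B i = A j - B j := by
      intro i j hij
      obtain ⟨k, h⟩ := exists_dist_thd i j hij
      linear_combination ha i j k h
    refine ⟨A (0, 1) - B (0, 1), fun i => ?_⟩
    by_cases h0 : i.1 = 0
    · have h1 := hK i (1, 1) (by rw [h0]; decide)
      have h2 := hK (1, 1) (0, 1) (by decide)
      linear_combination h1 + h2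
    · linear_combination hK i (0, 1) h0
  -- the remaining function
  obtain ⟨e0, e1', he'⟩ := dep_sign (fun i j k => c3 i j k - p k.1 * sg k)
    (by
      intro i j k h
      rw [a2 i j k h])
    (by
      intro i j k h
      have := hb i j k h
      rw [hp j, hp k] at this
      linear_combination this)
    (by
      intro i j k h
      have r1 := hb i j k h
      have r2 := he i k j h.s23
      rw [hp j, hp k] at r1
      rw [hp k, hp (neg j)] at r2
      rw [sg_neg, neg_fst] at r2 ⊢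
      linear_combination r1 - r2)
  refine ⟨p, β + κ, β, e0, e1', fun i j k h => ⟨?_, ?_, ?_⟩⟩
  · rw [hcA _ _ _ h, hκ, hp]; ring
  · rw [hcB _ _ _ h, hp]; ring
  · linear_combination he' i j k h

end Pool.Agent.MP_513174_co
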