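import Pool.Agent.MP_513174_co.StructA

namespace Pool.Agent.MP_513174_co

/-- Functions symmetric in the last two entries, invariant under the sign change of the last two
entries and of the first entry. -/
theorem dep_fst_sign (F : SIdx 3 → SIdx 3 → SIdx 3 → ℂ)
    (hs : ∀ i j k, Dist i j k → F i j k = F i k j)
    (hn : ∀ i j k, Dist i j k → F i j k = F i (neg j) (neg k))
    (h1 : ∀ i j k, Dist i j k → F (neg i) j k = F i j k) :
    ∃ f μ : Fin 3 → ℂ, ∀ i j k, Dist i j k → F i j k = f i.1 + μ i.1 * (sg j * sg k) := by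
  refine ⟨fun x => (F (x, 1) (x + 1, 1) (x + 2, 1) + F (x, 1) (x + 1, -1) (x + 2, 1)) / 2,
    fun x => (F (x, 1) (x + 1, 1) (x + 2, 1) - F (x, 1) (x + 1, -1) (x + 2, 1)) / 2, ?_⟩
  intro i j k h
  have habs : F i j k = F (ab i) j k := by
    rcases sidx_cases i with ⟨hi, -⟩ | ⟨hi, -⟩
    · rw [← hi]
    · rw [hi, h1 (ab i) j k h]; rfl
  rw [habs]
  obtain ⟨x, s⟩ := i
  obtain ⟨y, t⟩ := j
  obtain ⟨z, r⟩ := k
  obtain ⟨g1, g2, g3⟩ := h
  simp only at g1 g2 g3
  have hd : ∀ t r : ℤˣ, Dist ((x, 1) : SIdx 3) (y, t) (z, r) := fun t r => ⟨g1, g2, g3⟩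
  have n1 : F (x, 1) (y, 1) (z, -1) = F (x, 1) (y, -1) (z, 1) := hn _ _ _ (hd _ _)
  have n2 : F (x, 1) (y, -1) (z, -1) = F (x, 1) (y, 1) (z, 1) := hn _ _ _ (hd _ _)
  have w1 : F (x, 1) (y, 1) (z, 1) = F (x, 1) (z, 1) (y, 1) := hs _ _ _ (hd _ _)
  have w2 : F (x, 1) (y, 1) (z, -1) = F (x, 1) (z, -1) (y, 1) := hs _ _ _ (hd _ _)
  simp only [ab]
  rcases fin3_cases x y z g1 g2 g3 with ⟨rfl, rfl⟩ | ⟨rfl, rfl⟩
  · rcases Int.units_eq_one_or t with rfl | rfl <;> rcases Int.units_eq_one_or r with rfl | rfl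
    · simp only [sg]; push_cast; ring
    · rw [n1]; simp only [sg]; push_cast; ring
    · simp only [sg]; push_cast; ring
    · rw [n2]; simp only [sg]; push_cast; ring
  · rcases Int.units_eq_one_or t with rfl | rfl <;> rcases Int.units_eq_one_or r with rfl | rfl
    · rw [w1]; simp only [sg]; push_cast; ring
    · rw [w2]; simp only [sg]; push_cast; ring
    · rw [← n1, w2]; simp only [sg]; push_cast; ring
    · rw [n2, w1]; simp only [sg]; push_cast; ring

/-- Structure of the even splines of degree two (coefficient form). -/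
theorem structC (c11 c12 c13 c22 c23 c33 : SIdx 3 → SIdx 3 → SIdx 3 → ℂ)
    (t11 : ∀ i j k, Dist i j k → c11 i j (neg k) = c11 i j k)
    (t12 : ∀ i j k, Dist i j k → c12 i j (neg k) = c12 i j k)
    (t22 : ∀ i j k, Dist i j k → c22 i j (neg k) = c22 i j k)
    (a1 : ∀ i j k, Dist i j k →
      c11 i j k + c12 i j k + c22 i j k = c11 j i k + c12 j i k + c22 j i k)
    (a2 : ∀ i j k, Dist i j k → c13 i j k + c23 i j k = c13 j i k + c23 j i k)
    (a3 : ∀ i j k, Dist i j k → c33 i j k = c33 j i k)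
    (b1 : ∀ i j k, Dist i j k →
      c22 i j k + c23 i j k + c33 i j k = c22 i k j + c23 i k j + c33 i k j)
    (b2 : ∀ i j k, Dist i j k → c12 i j k + c13 i j k = c12 i k j + c13 i k j)
    (b3 : ∀ i j k, Dist i j k → c11 i j k = c11 i k j)
    (d2 : ∀ i j k, Dist i j k → c12 i j k + c23 i j k = c12 k j i + c23 k j i)
    (d3 : ∀ i j k, Dist i j k → c22 i j k = c22 k j i)
    (e1 : ∀ i j k, Dist i j k → c22 i j k - c23 i j k + c33 i j k
      = c22 i (neg k) (neg j) - c23 i (neg k) (neg j) + c33 i (neg k) (neg j))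
    (e2 : ∀ i j k, Dist i j k →
      c12 i j k - c13 i j k = c12 i (neg k) (neg j) - c13 i (neg k) (neg j))
    (f2 : ∀ i j k, Dist i j k →
      c12 i j k - c23 i j k = c12 (neg k) j (neg i) - c23 (neg k) j (neg i))
    (v11 : ∀ i j k, Dist i j k → c11 (neg i) (neg j) (neg k) = c11 i j k)
    (v12 : ∀ i j k, Dist i j k → c12 (neg i) (neg j) (neg k) = c12 i j k)
    (v13 : ∀ i j k, Dist i j k → c13 (neg i) (neg j) (neg k) = c13 i j k)
    (v22 : ∀ i j k, Dist i j k → c22 (neg i) (neg j) (neg k) = c22 i j k)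
    (v23 : ∀ i j k, Dist i j k → c23 (neg i) (neg j) (neg k) = c23 i j k)
    (v33 : ∀ i j k, Dist i j k → c33 (neg i) (neg j) (neg k) = c33 i j k) :
    ∃ (A : Fin 3 → ℂ) (l : Fin 3 → Fin 3 → ℂ) (μ : Fin 3 → ℂ) (κ12 κ13 κ22 κ23 κ33 : ℂ),
      (∀ x y, l x y = l y x) ∧ ∀ i j k, Dist i j k →
      c11 i j k = A i.1 ∧
      c22 i j k = A j.1 + κ22 ∧
      c33 i j k = A k.1 + κ33 + μ k.1 * (sg i * sg j) ∧
      c12 i j k = l i.1 j.1 * (sg i * sg j) + κ12 ∧
      c13 i j k = l i.1 k.1 * (sg i * sg k) + κ13 + μ i.1 * (sg j * sg k) ∧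
      c23 i j k = l j.1 k.1 * (sg j * sg k) + κ23 + μ j.1 * (sg i * sg k) := by
  set A : SIdx 3 → ℂ := fun i => c11 i (i.1 + 1, 1) (i.1 + 2, 1) with hA
  set B : SIdx 3 → ℂ := fun j => c22 (j.1 + 1, 1) j (j.1 + 2, 1) with hB
  set D : SIdx 3 → SIdx 3 → ℂ := fun i j => c12 i j (-i.1 - j.1, 1) with hD
  have hcA : ∀ i j k, Dist i j k → c11 i j k = A i := fun i j k h => dep_fst c11 t11 b3 i j k h
  have hcB : ∀ i j k, Dist i j k → c22 i j k = B j := fun i j k h => dep_snd c22 t22 d3 i j k h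
  have hcD : ∀ i j k, Dist i j k → c12 i j k = D i j := by
    intro i j k h
    have hk : k.1 = - i.1 - j.1 := by
      obtain ⟨h1, h2, h3⟩ := h
      generalize i.1 = x at *
      generalize j.1 = y at *
      generalize k.1 = z at *
      revert x y z; decide
    have hab : c12 i j k = c12 i j (ab k) := by
      rcases sidx_cases k with ⟨hk, -⟩ | ⟨hk, -⟩
      · rw [← hk]
      · rw [hk, t12 i j (ab k) h]; rfl
    rw [hab]
    simp only [ab, hk, hD]
  -- evenness
  have hAe : ∀ i, A (neg i) = A i := by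
    intro i
    obtain ⟨j, hij⟩ : ∃ j : SIdx 3, i.1 ≠ j.1 := ⟨(i.1 + 1, 1), by
      generalize i.1 = x; revert x; decide⟩
    obtain ⟨k, h⟩ := exists_dist_thd i j hij
    rw [← hcA (neg i) (neg j) (neg k) h, v11 i j k h, hcA i j k h]
  have hBe : ∀ j, B (neg j) = B j := by
    intro j
    obtain ⟨k, hjk⟩ : ∃ k : SIdx 3, j.1 ≠ k.1 := ⟨(j.1 + 1, 1), by
      generalize j.1 = x; revert x; decide⟩
    obtain ⟨i, h⟩ := exists_dist_snd j k hjk
    rw [← hcB (neg i) (neg j) (neg k) h, v22 i j k h, hcB i j k h]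
  have hDe : ∀ i j : SIdx 3, i.1 ≠ j.1 → D (neg i) (neg j) = D i j := by
    intro i j hij
    obtain ⟨k, h⟩ := exists_dist_thd i j hij
    rw [← hcD (neg i) (neg j) (neg k) h, v12 i j k h, hcD i j k h]
  -- rewritten relations
  have hb2 : ∀ i j k, Dist i j k → D i j + c13 i j k = D i k + c13 i k j := by
    intro i j k h
    have := b2 i j k h
    rwa [hcD _ _ _ h, hcD _ _ _ h.s23] at this
  have he2 : ∀ i j k, Dist i j k →
      D i j - c13 i j k = D i (neg k) - c13 i (neg k) (neg j) := by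
    intro i j k h
    have := e2 i j k h
    rwa [hcD _ _ _ h, hcD _ _ _ h.s23.n2.n3] at this
  have hd2 : ∀ i j k, Dist i j k → D i j + c23 i j k = D k j + c23 k j i := by
    intro i j k h
    have := d2 i j k h
    rwa [hcD _ _ _ h, hcD _ _ _ h.s13] at this
  have hf2 : ∀ i j k, Dist i j k →
      D i j - c23 i j k = D (neg k) j - c23 (neg k) j (neg i) := by
    intro i j k h
    have := f2 i j k h
    rwa [hcD _ _ _ h, hcD _ _ _ h.s13.n1.n3] at this
  have ha1 : ∀ i j : SIdx 3, i.1 ≠ j.1 → A i + D i j + B j = A j + D j i + B i := by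
    intro i j hij
    obtain ⟨k, h⟩ := exists_dist_thd i j hij
    have := a1 i j k h
    rwa [hcA _ _ _ h, hcB _ _ _ h, hcD _ _ _ h, hcA _ _ _ h.s12, hcB _ _ _ h.s12,
      hcD _ _ _ h.s12] at this
  -- the symmetrisation of D
  have g1 : ∀ i j k, Dist i j k → D i j + D i (neg j) = D i k + D i (neg k) := by
    intro i j k h
    have r1 := hb2 i j k h
    have r2 := he2 i k j h.s23
    have r3 := he2 i j k h
    have r4 := hb2 i (neg k) (neg j) h.s23.n2.n3
    linear_combination (1 / 2 : ℂ) * r1 - (1 / 2 : ℂ) * r2 + (1 / 2 : ℂ) * r3 - (1 / 2 : ℂ) * r4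
  have g2 : ∀ i j k, Dist i j k → D i j + D (neg i) j = D k j + D (neg k) j := by
    intro i j k h
    have r1 := hd2 i j k h
    have r2 := hf2 k j i h.s13
    have r3 := hf2 i j k h
    have r4 := hd2 (neg k) j (neg i) h.s13.n1.n3
    linear_combination (1 / 2 : ℂ) * r1 - (1 / 2 : ℂ) * r2 + (1 / 2 : ℂ) * r3 - (1 / 2 : ℂ) * r4
  have g0 : ∀ i j : SIdx 3, i.1 ≠ j.1 → D i (neg j) = D (neg i) j := by
    intro i j hij
    have := hDe i (neg j) hij
    rw [neg_neg'] at this
    exact this.symm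
  obtain ⟨κ, hκ⟩ : ∃ κ : ℂ, ∀ i j : SIdx 3, i.1 ≠ j.1 → D i j + D i (neg j) = 2 * κ := by
    have m1 : ∀ i j k, Dist i j k → D i j + D i (neg j) = D k j + D k (neg j) := by
      intro i j k h
      have := g2 i j k h
      rw [← g0 i j h.1, ← g0 k j h.2.1.symm] at this
      exact this
    have m3 : ∀ i j : SIdx 3, i.1 ≠ j.1 →
        D i j + D i (neg j) = D (ab i) (ab j) + D (ab i) (neg (ab j)) := by
      intro i j hij
      have q1 : D i j + D i (neg j) = D i (ab j) + D i (neg (ab j)) := by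
        rcases sidx_cases j with ⟨hj, -⟩ | ⟨hj, -⟩
        · rw [← hj]
        · conv_lhs => rw [hj]
          rw [neg_neg', add_comm]
      have q2 : D i (ab j) + D i (neg (ab j)) = D (ab i) (ab j) + D (ab i) (neg (ab j)) := by
        rcases sidx_cases i with ⟨hi, -⟩ | ⟨hi, -⟩
        · rw [← hi]
        · conv_lhs => rw [hi]
          rw [hDe (ab i) (ab j) hij, ← g0 (ab i) (ab j) hij, add_comm]
      rw [q1, q2]
    set S : Fin 3 → Fin 3 → Fin 3 → ℂ := fun x y _ => D (x, 1) (y, 1) + D (x, 1) (y, -1) with hS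
    have hS1 : ∀ x y z : Fin 3, x ≠ y → y ≠ z → x ≠ z → S x y z = S x z y := by
      intro x y z h1 h2 h3
      exact g1 (x, 1) (y, 1) (z, 1) ⟨h1, h2, h3⟩
    have hS2 : ∀ x y z : Fin 3, x ≠ y → y ≠ z → x ≠ z → S x y z = S z y x := by
      intro x y z h1 h2 h3
      exact m1 (x, 1) (y, 1) (z, 1) ⟨h1, h2, h3⟩
    have hS3 : ∀ x y z : Fin 3, x ≠ y → y ≠ z → x ≠ z → S x y z = S y x z := by
      intro x y z h1 h2 h3
      rw [hS1 x y z h1 h2 h3, hS2 x z y h3 h2.symm h1, hS1 y z x h2 h3.symm h1.symm]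
    refine ⟨S 0 1 2 / 2, fun i j hij => ?_⟩
    obtain ⟨k, h⟩ := exists_dist_thd i j hij
    rw [m3 i j hij]
    have := symm3 S hS3 hS1 i.1 j.1 k.1 h.1 h.2.1 h.2.2
    rw [← this]
    simp only [hS, ab, neg]
    ring
  -- A - B is constant and D is symmetric
  have hDsym : ∀ i j : SIdx 3, i.1 ≠ j.1 → D i j = D j i := by
    intro i j hij
    have r1 := ha1 i j hij
    have r2 := ha1 (neg i) j hij
    rw [hAe, hBe] at r2
    have r3 := hκ i j hij
    have r4 := hκ j i hij.symm
    rw [g0 i j hij] at r3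
    linear_combination (1 / 2 : ℂ) * r1 - (1 / 2 : ℂ) * r2 + (1 / 2 : ℂ) * r3 - (1 / 2 : ℂ) * r4
  obtain ⟨K, hK⟩ : ∃ K : ℂ, ∀ i, B i = A i + K := by
    have hK : ∀ i j : SIdx 3, i.1 ≠ j.1 → B i - A i = B j - A j := by
      intro i j hij
      have r1 := ha1 i j hij
      have r2 := hDsym i j hij
      linear_combination r2 - r1
    refine ⟨B (0, 1) - A (0, 1), fun i => ?_⟩
    by_cases h0 : i.1 = 0
    · have h1 := hK i (1, 1) (by rw [h0]; decide)
      have h2 := hK (1, 1) (0, 1) (by decide)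
      linear_combination h1 + h2
    · linear_combination hK i (0, 1) h0
  -- A and D in terms of absolute values
  have hAabs : ∀ i, A i = A (i.1, 1) := by
    intro i
    rcases sidx_cases i with ⟨hi, -⟩ | ⟨hi, -⟩
    · conv_lhs => rw [hi]
      rfl
    · conv_lhs => rw [hi]
      rw [hAe]; rfl
  set l : Fin 3 → Fin 3 → ℂ := fun x y =>
    if x = y then 0 else D (x, 1) (y, 1) - κ with hl
  have hlsym : ∀ x y, l x y = l y x := by
    intro x y
    by_cases hxy : x = y
    · rw [hxy]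
    · simp only [hl, hxy, Ne.symm hxy, if_false]
      rw [hDsym (x, 1) (y, 1) hxy]
  have hDl : ∀ i j : SIdx 3, i.1 ≠ j.1 → D i j = l i.1 j.1 * (sg i * sg j) + κ := by
    intro i j hij
    have e : l i.1 j.1 = D (ab i) (ab j) - κ := by
      simp only [hl, hij, if_false, ab]
    rw [e]
    rcases sidx_cases i with ⟨hi, hi2⟩ | ⟨hi, hi2⟩ <;>
      rcases sidx_cases j with ⟨hj, hj2⟩ | ⟨hj, hj2⟩
    · rw [← hi, ← hj]; simp only [sg, hi2, hj2]; push_cast; ring
    · have := hκ (ab i) (ab j) hij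
      have e2 : D i j = D (ab i) (neg (ab j)) := by rw [← hi, ← hj]
      rw [e2]; simp only [sg, hi2, hj2]; push_cast
      linear_combination this
    · have := hκ (ab i) (ab j) hij
      have e2 : D i j = D (ab i) (neg (ab j)) := by
        rw [g0 (ab i) (ab j) hij, ← hi, ← hj]
      rw [e2]; simp only [sg, hi2, hj2]; push_cast
      linear_combination this
    · have e2 : D i j = D (ab i) (ab j) := by
        rw [← hDe (ab i) (ab j) hij, ← hi, ← hj]
      rw [e2]; simp only [sg, hi2, hj2]; push_cast; ring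
  -- F and G
  set F : SIdx 3 → SIdx 3 → SIdx 3 → ℂ := fun i j k => c13 i j k - (D i k - κ) with hF
  set G : SIdx 3 → SIdx 3 → SIdx 3 → ℂ := fun i j k => c23 i j k - (D j k - κ) with hG
  have hF1 : ∀ i j k, Dist i j k → F i j k = F i k j := by
    intro i j k h
    simp only [hF]
    linear_combination hb2 i j k h
  have hF2 : ∀ i j k, Dist i j k → F i j k = F i (neg j) (neg k) := by
    intro i j k h
    have r := he2 i k j h.s23
    have r1 := hκ i j h.1
    have r2 := hκ i k h.2.2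
    have r3 := hb2 i j k h
    simp only [hF]
    linear_combination r3 - r - r1 + r2
  have hF3 : ∀ i j k, Dist i j k → F (neg i) j k = F i j k := by
    intro i j k h
    rw [hF2 (neg i) j k h.n1]
    simp only [hF]
    rw [v13 i j k h, hDe i k h.2.2]
  have hG1 : ∀ j i k, Dist j i k → G i j k = G k j i := by
    intro j i k h
    have := hd2 i j k h.s12
    have s1 := hDsym i j h.1.symm
    have s2 := hDsym k j h.2.2.symm
    simp only [hG]
    linear_combination this - s1 + s2
  have hG2 : ∀ j i k, Dist j i k → G i j k = G (neg i) j (neg k) := by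
    intro j i k h
    have r := hf2 k j i h.s12.s13
    have r1 := hκ j i h.1
    have r2 := hκ j k h.2.2
    have r3 := hd2 i j k h.s12
    have s1 := hDsym i j h.1.symm
    have s2 := hDsym k j h.2.2.symm
    have s3 := hDsym (neg i) j h.1.symm
    simp only [hG]
    linear_combination r3 - r - s1 + 2 * s2 - s3 - r1 + r2
  have hG3 : ∀ j i k, Dist j i k → G i (neg j) k = G i j k := by
    intro j i k h
    rw [hG2 (neg j) i k h]
    simp only [hG]
    rw [v23 i j k h.s12, hDe j k h.2.2]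
  obtain ⟨f, μ, hFf⟩ := dep_fst_sign F hF1 hF2 hF3
  obtain ⟨g, μ', hGg⟩ := dep_fst_sign (fun j i k => G i j k) hG1 hG2 hG3
  -- compare F and G
  have hFG : ∀ i j k, Dist i j k →
      f i.1 + μ i.1 * (sg j * sg k) + (g j.1 + μ' j.1 * (sg i * sg k))
      = f j.1 + μ j.1 * (sg i * sg k) + (g i.1 + μ' i.1 * (sg j * sg k)) := by
    intro i j k h
    rw [← hFf i j k h, ← hFf j i k h.s12]
    have q1 : G i j k = g j.1 + μ' j.1 * (sg i * sg k) := hGg j i k h.s12
    have q2 : G j i k = g i.1 + μ' i.1 * (sg j * sg k) := hGg i j k h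
    rw [← q1, ← q2]
    have := a2 i j k h
    have s := hDsym i k h.2.2
    simp only [hF, hG]
    linear_combination this
  have hμ : μ' = μ := by
    funext x
    obtain ⟨y, z, h1, h2, h3⟩ : ∃ y z : Fin 3, x ≠ y ∧ y ≠ z ∧ x ≠ z := by
      revert x; decide
    have r1 := hFG (x, 1) (y, 1) (z, 1) ⟨h1, h2, h3⟩
    have r2 := hFG (x, 1) (y, -1) (z, 1) ⟨h1, h2, h3⟩
    simp only [sg] at r1 r2
    push_cast at r1 r2
    linear_combination (-1 / 2 : ℂ) * r1 + (1 / 2 : ℂ) * r2
  subst hμ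
  have hfg : ∀ x y : Fin 3, x ≠ y → f x - g x = f y - g y := by
    intro x y hxy
    obtain ⟨k, h⟩ := exists_dist_thd (x, 1) (y, 1) hxy
    have r1 := hFG (x, 1) (y, 1) k h
    linear_combination r1
  -- E
  set E : SIdx 3 → SIdx 3 → SIdx 3 → ℂ :=
    fun i j k => c33 i j k - B k - μ' k.1 * (sg i * sg j) with hE
  have hE12 : ∀ i j k, Dist i j k → E i j k = E j i k := by
    intro i j k h
    simp only [hE]
    rw [a3 i j k h]; ring
  have hE23 : ∀ i j k, Dist i j k → g j.1 + E i j k = g k.1 + E i k j := by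
    intro i j k h
    have r := b1 i j k h
    rw [hcB _ _ _ h, hcB _ _ _ h.s23] at r
    have q1 := hGg j i k h.s12
    have q2 := hGg k i j h.s23.s12
    have s := hDsym j k h.2.1
    simp only [hG] at q1 q2
    simp only [hE]
    linear_combination r - q1 + q2 - s
  have hE23' : ∀ i j k, Dist i j k →
      - g j.1 + E i j k = - g k.1 + E i (neg k) (neg j) := by
    intro i j k h
    have r := e1 i j k h
    rw [hcB _ _ _ h, hcB _ _ _ h.s23.n2.n3] at r
    have q1 := hGg j i k h.s12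
    have q2 := hGg (neg k) i (neg j) h.s23.s12
    have s := hDe k j h.2.1.symm
    have s' := hDsym j k h.2.1
    simp only [hG, neg_fst, sg_neg] at q1 q2
    simp only [hE, neg_fst, sg_neg]
    linear_combination r + q1 - q2 - s + s' + hBe j + hBe k
  have hg : ∀ j k : SIdx 3, j.1 ≠ k.1 → g j.1 = g k.1 := by
    intro j k hjk
    obtain ⟨i, h⟩ := exists_dist_snd j k hjk
    have r1 := hE23 i j k h
    have r2 := hE23' i k j h.s23
    have r3 := hE23' i j k h
    have r4 := hE23 i (neg k) (neg j) h.s23.n2.n3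
    simp only [neg_fst] at r4
    linear_combination (1 / 4 : ℂ) * r1 + (1 / 4 : ℂ) * r2 - (1 / 4 : ℂ) * r3 - (1 / 4 : ℂ) * r4
  have hg0 : ∀ x : Fin 3, g x = g 0 := by
    intro x
    by_cases hx : x = 0
    · rw [hx]
    · exact hg (x, 1) (0, 1) hx
  have hf0 : ∀ x : Fin 3, f x = f 0 := by
    intro x
    by_cases hx : x = 0
    · rw [hx]
    · have := hfg x 0 hx
      rw [hg0 x] at this
      linear_combination this
  obtain ⟨e0, ee, hEe⟩ := dep_sign E hE12
    (by
      intro i j k h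
      have := hE23 i j k h
      rw [hg0 j.1, hg0 k.1] at this
      linear_combination this)
    (by
      intro i j k h
      have r1 := hE23 i j k h
      have r2 := hE23' i k j h.s23
      rw [hg0 j.1, hg0 k.1] at r1 r2
      linear_combination r1 + r2)
  have hee : ee = 0 := by
    have r1 := hEe (0, 1) (1, 1) (2, 1) (by decide)
    have r2 := hEe (0, -1) (1, -1) (2, -1) (by decide)
    have r3 : E (0, -1) (1, -1) (2, -1) = E (0, 1) (1, 1) (2, 1) := by
      have v := v33 (0, 1) (1, 1) (2, 1) (by decide)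
      have vB := hBe (2, 1)
      simp only [neg] at v vB
      simp only [hE, sg]
      rw [v, vB]
      push_cast; ring
    rw [r3, r1] at r2
    simp only [sg] at r2
    push_cast at r2
    linear_combination (1 / 2 : ℂ) * r2
  refine ⟨fun x => A (x, 1), l, μ', κ, f 0, K, g 0, e0 + K, hlsym, fun i j k h => ?_⟩
  refine ⟨?_, ?_, ?_, ?_, ?_, ?_⟩
  · rw [hcA i j k h, hAabs i]
  · rw [hcB i j k h, hK, hAabs j]
  · have r := hEe i j k h
    rw [hee] at r
    simp only [hE] at r
    rw [hK k, hAabs k] at r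
    linear_combination r
  · rw [hcD i j k h, hDl i j h.1]
  · have r := hFf i j k h
    simp only [hF] at r
    rw [hDl i k h.2.2, hf0] at r
    linear_combination r
  · have r := hGg j i k h.s12
    simp only [hG] at r
    rw [hDl j k h.2.1, hg0] at r
    linear_combination r

end Pool.Agent.MP_513174_co
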