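import Pool.Agent.MP_513174_co.Ideal

namespace Pool.Agent.MP_513174_co

open MvPolynomial

/-- a second derivative at the origin of the value at `w` -/
noncomputable def D (a b : Fin 3) (w : SignedPerm 3) :
    (SignedPerm 3 → MvPolynomial (Fin 3) ℂ) →ₗ[ℂ] ℂ where
  toFun ρ := d2 a b (ρ w)
  map_add' _ _ := d2_add _ _ _ _
  map_smul' _ _ := d2_smul _ _ _ _

theorem D_apply (a b : Fin 3) (w : SignedPerm 3) (ρ : SignedPerm 3 → MvPolynomial (Fin 3) ℂ) :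
    D a b w ρ = d2 a b (ρ w) := rfl

/-- the signed permutation with values given by absolute values and signs -/
noncomputable abbrev tr (x y z : Fin 3) (s t u : ℤˣ) : SignedPerm 3 := ofTriple (x, s) (y, t) (z, u)

/-- the six test functionals -/
noncomputable def tst : Fin 6 → (SignedPerm 3 → MvPolynomial (Fin 3) ℂ) →ₗ[ℂ] ℂ :=
  ![D 0 2 (tr 0 1 2 1 1 1) + D 0 2 (tr 0 1 2 (-1) 1 1) - D 0 2 (tr 0 1 2 1 (-1) 1)
      - D 0 2 (tr 0 1 2 (-1) (-1) 1),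
    D 1 2 (tr 0 1 2 1 1 1) + D 1 2 (tr 0 1 2 1 (-1) 1) - D 1 2 (tr 0 1 2 (-1) 1 1)
      - D 1 2 (tr 0 1 2 (-1) (-1) 1),
    D 2 2 (tr 0 1 2 1 1 1) - D 2 2 (tr 0 1 2 1 (-1) 1) - D 2 2 (tr 0 1 2 1 1 (-1))
      + D 2 2 (tr 0 1 2 1 (-1) (-1)),
    D 0 0 (tr 1 0 2 1 1 1) - D 0 0 (tr 1 0 2 1 (-1) 1)
      - (2 : ℂ) • (D 0 1 (tr 0 1 2 1 1 1) - D 0 1 (tr 0 1 2 1 (-1) 1)),
    D 1 1 (tr 0 1 2 1 1 1) - D 1 1 (tr 0 1 2 1 (-1) 1)
      - (2 : ℂ) • (D 0 1 (tr 1 0 2 1 1 1) - D 0 1 (tr 1 0 2 1 (-1) 1)),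
    D 2 2 (tr 0 2 1 1 1 1) - D 2 2 (tr 0 2 1 1 (-1) 1)
      - (2 : ℂ) • (D 0 2 (tr 2 0 1 1 1 1) - D 0 2 (tr 2 0 1 1 (-1) 1))]

theorem val_tr0 (x y z : Fin 3) (s t u : ℤˣ) (h1 : x ≠ y) (h2 : y ≠ z) (h3 : x ≠ z) :
    val (ofTriple (x, s) (y, t) (z, u)) 0 = (x, s) := (val_ofTriple ⟨h1, h2, h3⟩).1

theorem val_tr1 (x y z : Fin 3) (s t u : ℤˣ) (h1 : x ≠ y) (h2 : y ≠ z) (h3 : x ≠ z) :
    val (ofTriple (x, s) (y, t) (z, u)) 1 = (y, t) := (val_ofTriple ⟨h1, h2, h3⟩).2.1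

theorem val_tr2 (x y z : Fin 3) (s t u : ℤˣ) (h1 : x ≠ y) (h2 : y ≠ z) (h3 : x ≠ z) :
    val (ofTriple (x, s) (y, t) (z, u)) 2 = (z, u) := (val_ofTriple ⟨h1, h2, h3⟩).2.2

theorem tst_kills (i : Fin 6) {ρ : SplineRing H0} (hρ : ρ ∈ constIdeal H0) : tst i ρ.1 = 0 := by
  apply kills_of _ _ hρ
  intro τ hτ p hp
  obtain ⟨k, P, q1, q2, q3, r, h0, h1⟩ := jet hτ
  fin_cases i <;>
  simp [tst, D_apply, d2_mul, hp, h0, h1, dd, dl, val_tr0, val_tr1, val_tr2, sg] <;> ring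

/-- the six odd splines -/
noncomputable def zz : Fin 6 → (SignedPerm 3 → MvPolynomial (Fin 3) ℂ) :=
  ![dx * xr 0, dx * xr 1, dx * xr 2, yy 0, yy 1, yy 2]

theorem zz_mem (i : Fin 6) : zz i ∈ splineDeg H0 2 := by
  have h : ∀ a, dx * xr a ∈ splineDeg H0 2 := fun a =>
    ⟨mul_mem dx_mem (xr_mem a), fun w => (dx_hom w).mul (xr_hom a w)⟩
  have h' : ∀ a, yy a ∈ splineDeg H0 2 := fun a => ⟨yy_mem a, fun w => yy_hom a w⟩
  fin_cases i
  · exact h 0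
  · exact h 1
  · exact h 2
  · exact h' 0
  · exact h' 1
  · exact h' 2

theorem d2_sq (a b : Fin 3) (p : MvPolynomial (Fin 3) ℂ) :
    d2 a b (p ^ 2) = d2 a b p * d0 p + d1 a p * d1 b p + d1 b p * d1 a p + d0 p * d2 a b p := by
  rw [pow_two, d2_mul]

theorem d2_X_sq (a b c : Fin 3) : d2 a b (X c ^ 2) = if c = a then if c = b then 2 else 0 else 0 := by
  rw [d2_sq, d0_X, d1_X, d1_X]
  split_ifs <;> norm_num

theorem d2_yy (a b : Fin 3) (c : Fin 3) (v : SignedPerm 3) (m : Fin 3) (h : (val v m).1 = c) :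
    d2 a b (yy c v) = sg (val v m) * (d2 a b (X c ^ 2) - d2 a b (X (val v 2).1 ^ 2)) := by
  rw [yy_eq h, sVar_sq, sVar_sq, h, sub_eq_add_neg, ← neg_one_mul, ← C_1, ← C_neg, d2_mul, d2_add,
    d2_mul, d0_C, d1_C, d1_C, d2_C, d1_C, d1_C, d2_C, d0_C]
  ring

theorem d2_yy_tr (a b c x y z : Fin 3) (s t u : ℤˣ) (h1 : x ≠ y) (h2 : y ≠ z) (h3 : x ≠ z) :
    d2 a b (yy c (ofTriple (x, s) (y, t) (z, u)))
      = (if c = x then sg (x, s) else if c = y then sg (y, t) else sg (z, u))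
        * (d2 a b (X c ^ 2) - d2 a b (X z ^ 2)) := by
  have e0 := val_tr0 x y z s t u h1 h2 h3
  have e1 := val_tr1 x y z s t u h1 h2 h3
  have e2 := val_tr2 x y z s t u h1 h2 h3
  split_ifs with hx hy
  · rw [d2_yy a b c _ 0 (by rw [e0]; exact hx.symm), e0, e2]
  · rw [d2_yy a b c _ 1 (by rw [e1]; exact hy.symm), e1, e2]
  · have h : c = z := by
      rcases cases_val (ofTriple (x, s) (y, t) (z, u)) c with h | h | h
      · rw [e0] at h; exact absurd h.symm hx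
      · rw [e1] at h; exact absurd h.symm hy
      · rw [e2] at h; exact h.symm
    rw [d2_yy a b c _ 2 (by rw [e2]; exact h.symm), e2]

theorem tst_zz (i j : Fin 6) : tst i (zz j) = if i = j then ![4, 4, 8, 4, 4, 4] i else 0 := by
  have hd : ∀ a i, d1 a (sVar i) = dd a i := d1_sVar
  have hx : ∀ a b c v, d2 a b (dx v * xr c v) = dl v * (dd a (val v 2) * dd b (val v c)
      + dd b (val v 2) * dd a (val v c)) := by
    intro a b c v
    simp only [dx, xr, d2_mul, d1_mul, d0_mul, d0_sVar, hd, d2_sVar, d0_C, d1_C, d2_C]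
    ring
  fin_cases j
  · fin_cases i <;>
    simp [tst, zz, D_apply, hx, dd, dl, val_tr0, val_tr1, val_tr2, sg] <;> norm_num
  · fin_cases i <;>
    simp [tst, zz, D_apply, hx, dd, dl, val_tr0, val_tr1, val_tr2, sg] <;> norm_num
  · fin_cases i <;>
    simp [tst, zz, D_apply, hx, dd, dl, val_tr0, val_tr1, val_tr2, sg] <;> norm_num
  · fin_cases i <;>
    simp [tst, zz, D_apply, d2_yy_tr, d2_X_sq, sg] <;> norm_num
  · fin_cases i <;>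
    simp [tst, zz, D_apply, d2_yy_tr, d2_X_sq, sg] <;> norm_num
  · fin_cases i <;>
    simp [tst, zz, D_apply, d2_yy_tr, d2_X_sq, sg] <;> norm_num

end Pool.Agent.MP_513174_co
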