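import Pool.Agent.MP_513174_co.Tests

namespace Pool.Agent.MP_513174_co

open MvPolynomial

/-- The trace of an involution with small fixed space and large anti-fixed space. -/
theorem trace_invol {V : Type*} [AddCommGroup V] [Module ℂ V] [Module.Finite ℂ V]
    (T : V →ₗ[ℂ] V) (hT : ∀ v, T (T v) = v) (u : Fin 5 → V)
    (hu : ∀ v, T v = v → v ∈ Submodule.span ℂ (Set.range u)) (z : Fin 6 → V)
    (hz : ∀ i, T (z i) = - z i) (hli : LinearIndependent ℂ z) :
    ∃ m : ℤ, m < 0 ∧ LinearMap.trace ℂ V T = (m : ℂ) := by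
  let F : Submodule ℂ V := Submodule.span ℂ (Set.range u) ⊓ LinearMap.ker (T - 1)
  let P : V →ₗ[ℂ] V := (1 / 2 : ℂ) • (1 + T)
  have hP : ∀ v, P v = (1 / 2 : ℂ) • (v + T v) := fun v => rfl
  have hF : ∀ v, v ∈ F ↔ T v = v := by
    intro v
    refine ⟨fun h => ?_, fun h => ⟨hu v h, ?_⟩⟩
    · have := h.2
      rw [SetLike.mem_coe, LinearMap.mem_ker, LinearMap.sub_apply, sub_eq_zero] at this
      exact this
    · rw [SetLike.mem_coe, LinearMap.mem_ker, LinearMap.sub_apply, sub_eq_zero]
      exact h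
  have hproj : LinearMap.IsProj F P := by
    constructor
    · intro v
      rw [hF, hP, map_smul, map_add, hT, add_comm]
    · intro v hv
      rw [hF] at hv
      rw [hP, hv, ← two_smul ℂ v, smul_smul]
      norm_num
  have htr := hproj.trace
  have hker : 6 ≤ Module.finrank ℂ (LinearMap.ker P) := by
    have h1 : Submodule.span ℂ (Set.range z) ≤ LinearMap.ker P := by
      rw [Submodule.span_le]
      rintro _ ⟨i, rfl⟩
      rw [SetLike.mem_coe, LinearMap.mem_ker, hP, hz]
      simp
    have h2 := Submodule.finrank_mono h1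
    rw [finrank_span_eq_card hli] at h2
    simpa using h2
  have hF5 : Module.finrank ℂ F ≤ 5 := by
    have h1 : F ≤ Submodule.span ℂ (Set.range u) := inf_le_left
    have h2 := Submodule.finrank_mono h1
    have h3 := finrank_range_le_card (R := ℂ) u
    rw [Set.finrank, Fintype.card_fin] at h3
    exact h2.trans h3
  have hrange : LinearMap.range P = F := by
    apply le_antisymm
    · rintro _ ⟨v, rfl⟩
      exact hproj.map_mem v
    · intro v hv
      exact ⟨v, hproj.map_id v hv⟩
  have hdim := LinearMap.finrank_range_add_finrank_ker P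
  rw [hrange] at hdim
  have hTP : T = (2 : ℂ) • P - 1 := by
    ext v
    rw [LinearMap.sub_apply, LinearMap.smul_apply, hP, smul_smul]
    norm_num
  refine ⟨2 * Module.finrank ℂ F - Module.finrank ℂ V, by omega, ?_⟩
  rw [hTP, map_sub, map_smul, htr, LinearMap.trace_one]
  push_cast
  rfl

instance finite_splineDeg {n : ℕ} (H : HessenbergSpace n) (k : ℕ) :
    Module.Finite ℂ (SplineDeg H k) := by
  have h1 : Module.Finite ℂ (homogeneousSubmodule (Fin n) ℂ k) :=
    Module.Finite.iff_fg.2 (homogeneousSubmodule_fg _ _ _)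
  let f : SplineDeg H k →ₗ[ℂ] (SignedPerm n → homogeneousSubmodule (Fin n) ℂ k) :=
    { toFun := fun ρ w => ⟨ρ.1 w, ρ.2.2 w⟩
      map_add' := fun _ _ => rfl
      map_smul' := fun _ _ => rfl }
  apply Module.Finite.of_injective f
  intro ρ σ h
  apply Subtype.ext
  funext w
  exact congrArg Subtype.val (congrFun h w)

instance finite_leftQuotient {n : ℕ} (H : HessenbergSpace n) (k : ℕ) :
    Module.Finite ℂ (LeftQuotient H k) :=
  inferInstanceAs (Module.Finite ℂ (SplineDeg H k ⧸ constPart H k))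

theorem polyAct_negW {q : MvPolynomial (Fin 3) ℂ} (hq : q.IsHomogeneous 2) :
    polyAct negW q = q := by
  obtain ⟨c11, c12, c13, c22, c23, c33, rfl⟩ := deg2_form hq
  have h : ∀ a, polyAct negW (X a : MvPolynomial (Fin 3) ℂ) = - X a := by
    intro a
    rw [polyAct_X, negW_apply, sVar_neg]
    simp [sVar]
  have hC : ∀ c, polyAct negW (C c : MvPolynomial (Fin 3) ℂ) = C c := by
    intro c
    simp [polyAct, algebraMap_eq]
  simp only [map_add, map_mul, map_pow, h, hC]
  ring

theorem dotDeg_negW (ρ : SplineDeg H0 2) (v : SignedPerm 3) :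
    (dotDeg negW ρ).1 v = ρ.1 (negW * v) := by
  change polyAct negW (ρ.1 (negW⁻¹ * v)) = _
  rw [polyAct_negW (ρ.2.2 _), negW_inv]

/-- the class of a spline -/
noncomputable def cls : SplineDeg H0 2 →ₗ[ℂ] LeftQuotient H0 2 := (constPart H0 2).mkQ

theorem leftRep_cls (w : SignedPerm 3) (ρ : SplineDeg H0 2) :
    leftRep H0 2 w (cls ρ) = cls (dotDeg w ρ) := rfl

theorem cls_eq_zero {ρ : SplineDeg H0 2} : cls ρ = 0 ↔ ρ.toRing ∈ constIdeal H0 :=
  Submodule.Quotient.mk_eq_zero _

theorem cls_surj (x : LeftQuotient H0 2) : ∃ ρ, cls ρ = x := Submodule.mkQ_surjective _ x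

/-- the products of two right variables -/
noncomputable def xx (a b : Fin 3) : SplineDeg H0 2 :=
  ⟨xr a * xr b, mul_mem (xr_mem a) (xr_mem b), fun w => (xr_hom a w).mul (xr_hom b w)⟩

/-- the odd splines, as homogeneous splines -/
noncomputable def zs (i : Fin 6) : SplineDeg H0 2 := ⟨zz i, zz_mem i⟩

/-- the family underlying a homogeneous spline -/
noncomputable def fam : SplineDeg H0 2 →ₗ[ℂ] Fam 3 := (splineDeg H0 2).subtype

theorem fam_apply (ρ : SplineDeg H0 2) : fam ρ = ρ.1 := rfl

theorem zz_odd (i : Fin 6) (v : SignedPerm 3) : zz i (negW * v) = - zz i v := by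
  have hdl : dl (negW * v) = - dl v := by
    simp only [dl, val_negW_mul, sg_neg]; ring
  have hdx : dx (negW * v) = dx v := by
    rw [dx, dx, hdl, val_negW_mul, sVar_neg, C_neg]; ring
  have hxr : ∀ a, xr a (negW * v) = - xr a v := by
    intro a
    rw [xr, xr, val_negW_mul, sVar_neg]
  have h : ∀ a, (dx * xr a) (negW * v) = - (dx * xr a) v := by
    intro a
    rw [Pi.mul_apply, Pi.mul_apply, hdx, hxr]; ring
  have h' : ∀ a, yy a (negW * v) = - yy a v := by
    intro a
    rcases cases_val v a with h | h | h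
    · rw [yy_eq h, yy_eq (m := 0) (by rw [val_negW_mul]; exact h), val_negW_mul, val_negW_mul,
        sVar_neg, sVar_neg, sg_neg, C_neg]
      ring
    · rw [yy_eq h, yy_eq (m := 1) (by rw [val_negW_mul]; exact h), val_negW_mul, val_negW_mul,
        sVar_neg, sVar_neg, sg_neg, C_neg]
      ring
    · rw [yy_eq h, yy_eq (m := 2) (by rw [val_negW_mul]; exact h), val_negW_mul,
        sVar_neg, sg_neg, C_neg]
      ring
  fin_cases i
  · exact h 0
  · exact h 1
  · exact h 2
  · exact h' 0
  · exact h' 1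
  · exact h' 2

theorem leftRep_zs (i : Fin 6) : leftRep H0 2 negW (cls (zs i)) = - cls (zs i) := by
  rw [leftRep_cls, ← map_neg]
  congr 1
  apply Subtype.ext
  funext v
  rw [dotDeg_negW]
  exact zz_odd i v

theorem linInd_zs : LinearIndependent ℂ (fun i => cls (zs i)) := by
  rw [Fintype.linearIndependent_iff]
  intro g hg i
  have h1 : cls (∑ j, g j • zs j) = 0 := by
    rw [map_sum]
    simp only [map_smul]
    exact hg
  have h2 : tst i (fam (∑ j, g j • zs j)) = 0 := tst_kills i (cls_eq_zero.1 h1)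
  rw [map_sum, map_sum] at h2
  simp only [map_smul, fam_apply] at h2
  change ∑ j, g j • tst i (zz j) = 0 at h2
  simp only [tst_zz, smul_eq_mul, mul_ite, mul_zero, Finset.sum_ite_eq,
    Finset.mem_univ, if_true] at h2
  rcases mul_eq_zero.1 h2 with h | h
  · exact h
  · exfalso
    revert h
    fin_cases i <;> simp

/-- the five even splines -/
noncomputable def us : Fin 5 → SplineDeg H0 2 := ![xx 0 1, xx 0 2, xx 1 1, xx 1 2, xx 2 2]

theorem fixed_span (x : LeftQuotient H0 2) (hx : leftRep H0 2 negW x = x) :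
    x ∈ Submodule.span ℂ (Set.range fun i => cls (us i)) := by
  obtain ⟨ρ, rfl⟩ := cls_surj x
  let σ : SplineDeg H0 2 := (1 / 2 : ℂ) • (ρ + dotDeg negW ρ)
  have hσ : cls σ = cls ρ := by
    rw [map_smul, map_add, ← leftRep_cls, hx, ← two_smul ℂ (cls ρ), smul_smul]
    norm_num
  have hev : ∀ v, σ.1 (negW * v) = σ.1 v := by
    intro v
    have h1 : ∀ w, σ.1 w = (1 / 2 : ℂ) • (ρ.1 w + ρ.1 (negW * w)) := by
      intro w
      rw [← dotDeg_negW ρ w]
      rfl
    rw [h1, h1, ← mul_assoc, negW_mul_self, one_mul, add_comm]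
  obtain ⟨q, μ, k12, k13, k22, k23, k33, hq, h⟩ := splines_deg2_even σ.2 hev
  let ℓ : MvPolynomial (Fin 3) ℂ := C (μ 0) * X 0 + C (μ 1) * X 1 + C (μ 2) * X 2
  have hℓ : ℓ.IsHomogeneous 1 := ((isHomogeneous_C_mul_X _ _).add (isHomogeneous_C_mul_X _ _)).add
    (isHomogeneous_C_mul_X _ _)
  let cq : SplineDeg H0 2 := ⟨fun _ => q, (constSpline H0 q).2, fun _ => hq⟩
  let lx : SplineDeg H0 2 := ⟨fun v => ℓ * dx v,
    mul_mem (constSpline H0 ℓ).2 dx_mem, fun v => hℓ.mul (dx_hom v)⟩
  have hcq : cls cq = 0 := cls_eq_zero.2 (constSpline_mem H0 (by norm_num) hq)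
  have hlx : cls lx = 0 := by
    rw [cls_eq_zero]
    let dr : SplineRing H0 := (⟨dx, dx_mem⟩ : splineRing H0)
    have h1 : lx.toRing = constSpline H0 ℓ * dr := rfl
    rw [h1]
    exact Ideal.mul_mem_right _ _ (constSpline_mem H0 (by norm_num) hℓ)
  have hsum : σ = cq + lx + k12 • us 0 + k13 • us 1 + k22 • us 2 + k23 • us 3 + k33 • us 4 := by
    apply Subtype.ext
    funext v
    have h2 : ∀ (c : ℂ) (a b : Fin 3), (c • xx a b : SplineDeg H0 2).1 v
        = C c * (sVar (val v a) * sVar (val v b)) := by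
      intro c a b
      rw [C_mul']
      rfl
    rw [h v]
    change _ = q + ℓ * dx v + (k12 • xx 0 1 : SplineDeg H0 2).1 v
      + (k13 • xx 0 2 : SplineDeg H0 2).1 v + (k22 • xx 1 1 : SplineDeg H0 2).1 v
      + (k23 • xx 1 2 : SplineDeg H0 2).1 v + (k33 • xx 2 2 : SplineDeg H0 2).1 v
    rw [h2, h2, h2, h2, h2]
    rfl
  rw [← hσ, hsum]
  simp only [map_add, map_smul, hcq, hlx]
  have h4 : ∀ i, cls (us i) ∈ Submodule.span ℂ (Set.range fun i => cls (us i)) := fun i =>
    Submodule.subset_span ⟨i, rfl⟩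
  refine add_mem (add_mem (add_mem (add_mem (add_mem (add_mem (zero_mem _) (zero_mem _)) ?_) ?_)
    ?_) ?_) ?_
  all_goals exact Submodule.smul_mem _ _ (h4 _)

/-- The value of the character at `-1` is a negative integer. -/
theorem character_negW : ∃ m : ℤ, m < 0 ∧ (leftRep H0 2).character negW = (m : ℂ) := by
  apply trace_invol (leftRep H0 2 negW) _ _ fixed_span _ leftRep_zs linInd_zs
  intro v
  have h : leftRep H0 2 negW (leftRep H0 2 negW v) = leftRep H0 2 (negW * negW) v := by
    rw [map_mul]; rfl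
  rw [h, negW_mul_self, map_one]
  rfl

end Pool.Agent.MP_513174_co
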