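import Pool.Agent.MP_513174_co.StructC

namespace Pool.Agent.MP_513174_co

open MvPolynomial

/-- The value of a signed permutation at `a`. -/
def val (v : SignedPerm 3) (a : Fin 3) : SIdx 3 := v.toPerm (a, 1)

theorem val_ext {v w : SignedPerm 3} (h : ∀ a, val v a = val w a) : v = w := by
  apply SignedPerm.toPerm_inj
  ext1 ⟨a, s⟩
  rcases Int.units_eq_one_or s with rfl | rfl
  · exact h a
  · have h1 : ((a, -1) : SIdx 3) = neg (a, 1) := rfl
    rw [h1, signedPerm_neg, signedPerm_neg]
    exact congrArg neg (h a)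

theorem apply_eq_val (v : SignedPerm 3) (a : Fin 3) :
    v.toPerm (a, 1) = val v a := rfl

theorem apply_neg_one (v : SignedPerm 3) (a : Fin 3) :
    v.toPerm (a, -1) = neg (val v a) := by
  have h1 : ((a, -1) : SIdx 3) = neg (a, 1) := rfl
  rw [h1, signedPerm_neg]; rfl

theorem val_fst_ne (v : SignedPerm 3) {a b : Fin 3} (h : a ≠ b) : (val v a).1 ≠ (val v b).1 := by
  intro hab
  have hv : Function.Injective v.toPerm := Equiv.injective _
  have h1 : val v a = val v b ∨ val v a = neg (val v b) := by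
    generalize val v a = x at *
    generalize val v b = y at *
    obtain ⟨x, s⟩ := x
    obtain ⟨y, t⟩ := y
    simp only at hab
    subst hab
    rcases Int.units_eq_one_or s with rfl | rfl <;> rcases Int.units_eq_one_or t with rfl | rfl
    · left; rfl
    · right; rfl
    · right; rfl
    · left; rfl
  rcases h1 with h1 | h1
  · have := hv h1
    exact h (congrArg Prod.fst this)
  · rw [← apply_neg_one] at h1
    have := hv h1
    exact h (congrArg Prod.fst this)

theorem dist_val (v : SignedPerm 3) : Dist (val v 0) (val v 1) (val v 2) :=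
  ⟨val_fst_ne v (by decide), val_fst_ne v (by decide), val_fst_ne v (by decide)⟩

theorem injective_of_dist {i j k : SIdx 3} (h : Dist i j k) :
    Function.Injective (![i.1, j.1, k.1] : Fin 3 → Fin 3) := by
  obtain ⟨h1, h2, h3⟩ := h
  intro a b hab
  fin_cases a <;> fin_cases b <;> simp_all [Ne.symm]

/-- The signed permutation with prescribed values. -/
noncomputable def ofTriple (i j k : SIdx 3) : SignedPerm 3 :=
  if h : Dist i j k then
    signedPermOf (Equiv.ofBijective _ (Finite.injective_iff_bijective.1 (injective_of_dist h)))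
      ![i.2, j.2, k.2]
  else 1

theorem val_signedPermOf (σ : Equiv.Perm (Fin 3)) (ε : Fin 3 → ℤˣ) (a : Fin 3) :
    val (signedPermOf σ ε) a = (σ a, ε a) := by
  simp [val, signedPermOf]

theorem val_ofTriple {i j k : SIdx 3} (h : Dist i j k) :
    val (ofTriple i j k) 0 = i ∧ val (ofTriple i j k) 1 = j ∧ val (ofTriple i j k) 2 = k := by
  rw [ofTriple, dif_pos h, val_signedPermOf, val_signedPermOf, val_signedPermOf]
  exact ⟨rfl, rfl, rfl⟩

theorem eq_ofTriple (v : SignedPerm 3) {i j k : SIdx 3} (h0 : val v 0 = i) (h1 : val v 1 = j)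
    (h2 : val v 2 = k) : v = ofTriple i j k := by
  have h : Dist i j k := by rw [← h0, ← h1, ← h2]; exact dist_val v
  obtain ⟨e0, e1, e2⟩ := val_ofTriple h
  apply val_ext
  intro a
  fin_cases a
  · exact h0.trans e0.symm
  · exact h1.trans e1.symm
  · exact h2.trans e2.symm

/-! The reflections used. -/

/-- `(1 2)` -/
def s12 : PosRoot 3 := .sub 0 1 (by decide)
/-- `(2 3)` -/
def s23 : PosRoot 3 := .sub 1 2 (by decide)
/-- `(1 3)` -/
def s13 : PosRoot 3 := .sub 0 2 (by decide)
/-- sign change of 3 -/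
def t3 : PosRoot 3 := .dbl 2
/-- `(2 -3)` -/
def n23 : PosRoot 3 := .add 1 2 (by decide)
/-- `(1 -3)` -/
def n13 : PosRoot 3 := .add 0 2 (by decide)

theorem val_mul (v w : SignedPerm 3) (a : Fin 3) :
    val (v * w) a = v.toPerm (val w a) := rfl

theorem apply_pair (v : SignedPerm 3) (a : Fin 3) (s : ℤˣ) :
    v.toPerm (a, s) = ((val v a).1, s * (val v a).2) := by
  rcases Int.units_eq_one_or s with rfl | rfl
  · rw [apply_eq_val, one_mul]
  · rw [apply_neg_one]; simp [neg]

theorem val_s12 (v : SignedPerm 3) : val (v * s12.refl) 0 = val v 1 ∧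
    val (v * s12.refl) 1 = val v 0 ∧ val (v * s12.refl) 2 = val v 2 := by
  refine ⟨?_, ?_, ?_⟩ <;> rw [val_mul, s12, PosRoot.refl, val_signedPermOf, apply_pair] <;>
    simp [Equiv.swap_apply_def]

theorem val_s23 (v : SignedPerm 3) : val (v * s23.refl) 0 = val v 0 ∧
    val (v * s23.refl) 1 = val v 2 ∧ val (v * s23.refl) 2 = val v 1 := by
  refine ⟨?_, ?_, ?_⟩ <;> rw [val_mul, s23, PosRoot.refl, val_signedPermOf, apply_pair] <;>
    simp [Equiv.swap_apply_def]

theorem val_s13 (v : SignedPerm 3) : val (v * s13.refl) 0 = val v 2 ∧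
    val (v * s13.refl) 1 = val v 1 ∧ val (v * s13.refl) 2 = val v 0 := by
  refine ⟨?_, ?_, ?_⟩ <;> rw [val_mul, s13, PosRoot.refl, val_signedPermOf, apply_pair] <;>
    simp [Equiv.swap_apply_def]

theorem val_t3 (v : SignedPerm 3) : val (v * t3.refl) 0 = val v 0 ∧
    val (v * t3.refl) 1 = val v 1 ∧ val (v * t3.refl) 2 = neg (val v 2) := by
  refine ⟨?_, ?_, ?_⟩ <;> rw [val_mul, t3, PosRoot.refl, val_signedPermOf, apply_pair] <;>
    simp [neg]

theorem val_n23 (v : SignedPerm 3) : val (v * n23.refl) 0 = val v 0 ∧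
    val (v * n23.refl) 1 = neg (val v 2) ∧ val (v * n23.refl) 2 = neg (val v 1) := by
  refine ⟨?_, ?_, ?_⟩ <;> rw [val_mul, n23, PosRoot.refl, val_signedPermOf, apply_pair] <;>
    simp [neg, Equiv.swap_apply_def]

theorem val_n13 (v : SignedPerm 3) : val (v * n13.refl) 0 = neg (val v 2) ∧
    val (v * n13.refl) 1 = val v 1 ∧ val (v * n13.refl) 2 = neg (val v 0) := by
  refine ⟨?_, ?_, ?_⟩ <;> rw [val_mul, n13, PosRoot.refl, val_signedPermOf, apply_pair] <;>
    simp [neg, Equiv.swap_apply_def]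

end Pool.Agent.MP_513174_co
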